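import Pool.Agent.Work.MP_f96e05_an.Defs

/-!
Clark measures of a self-map of the disc and the continued fraction built from them.
-/

set_option autoImplicit false

open MeasureTheory

namespace Pool.Agent.Work.MP_f96e05_an.NR

/-- The Poisson kernel of the unit disc. -/
noncomputable def pois (z ξ : ℂ) : ℝ := (1 - ‖z‖ ^ 2) / ‖ξ - z‖ ^ 2

/-- `μ ζ`, `‖ζ‖ = 1`, are the Aleksandrov-Clark measures of `φ`: `μ ζ` is the finite positive
measure on the unit circle whose Poisson integral is `Re ((ζ + φ) / (ζ - φ))`. -/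
def IsClark (φ : ℂ → ℂ) (μ : ℂ → Measure ℂ) : Prop :=
  ∀ ζ : ℂ, ‖ζ‖ = 1 → IsFiniteMeasure (μ ζ) ∧ (∀ᵐ ξ ∂μ ζ, ‖ξ‖ = 1) ∧
    ∀ z : ℂ, ‖z‖ < 1 → ∫ ξ, pois z ξ ∂μ ζ = pois (φ z) ζ

/-- One step of the continued fraction: `r ↦ E - ∫ 1 / r dμ ζ`. -/
noncomputable def step (μ : ℂ → Measure ℂ) (E : ℝ) (r : ℂ → ℝ) (ζ : ℂ) : ℝ :=
  E - ∫ ξ, (r ξ)⁻¹ ∂μ ζ

/-- The approximants `r 0 = E`, `r (k + 1) = step r k`. -/
noncomputable def frac (μ : ℂ → Measure ℂ) (E : ℝ) (k : ℕ) : ℂ → ℝ :=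
  (step μ E)^[k] fun _ => E

/-- The infimum of the numbers `E` for which the approximants `r 0, …, r k` are positive on the
unit circle. -/
noncomputable def level (μ : ℂ → Measure ℂ) (k : ℕ) : ℝ :=
  sInf {E : ℝ | ∀ j ≤ k, ∀ ζ : ℂ, ‖ζ‖ = 1 → 0 < frac μ E j ζ}

end Pool.Agent.Work.MP_f96e05_an.NR
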