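import Pool.Agent.Work.MP_f96e05_an.NR.Main

-- merged part: Pool.Agent.Work.MP_f96e05_an.NR.Atom
section
/-!
The atom of the Clark measure at a boundary fixed point and the resulting lower bound.
-/

set_option autoImplicit false

open MeasureTheory Filter Topology Complex Metric
open scoped ComplexConjugate InnerProductSpace

namespace Pool.Agent.Work.MP_f96e05_an.NR

variable {φ : ℂ → ℂ} {S : TT → TT} {ν : TT → Measure TT} {E α : ℝ} {x₀ : TT}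

lemma ee_inj : Function.Injective ee := fun x y h => by
  refine AddCircle.injective_toCircle (factTau.out.ne') (Circle.ext ?_)
  simpa only [ee, fourier_one] using h

lemma Ker.atom (hν : Ker φ ν) (hα : 0 < α)
    (hder : Tendsto (fun r : ℝ => (φ (r * ee x₀) - ee x₀) / (r * ee x₀ - ee x₀)) (𝓝[<] 1) (𝓝 α)) :
    (ν x₀).real {x₀} = 1 / α := by
  have := hν.fin x₀
  have hr : ∀ n, ‖(rr n : ℂ) * ee x₀‖ < 1 := fun n => mem_ball_zero_iff.1 (rr_mem n x₀)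
  have hr1 : ∀ n, 0 < 1 - rr n := fun n => by linarith [rr_lt n]
  have hg : ∀ n y, (1 - rr n) / (1 + rr n) * pk (rr n * ee x₀) y =
      (1 - rr n) ^ 2 / ‖ee y - rr n * ee x₀‖ ^ 2 := fun n y => by
    have := rr_pos n
    have h1 := norm_ne_zero_iff.2 (ee_sub_ne (hr n) y)
    rw [pk, norm_mul, ee_norm, norm_real, Real.norm_eq_abs, abs_of_pos this]
    field_simp
    ring
  have h1 : Tendsto (fun n => ∫ y, (1 - rr n) / (1 + rr n) * pk (rr n * ee x₀) y ∂ν x₀) atTop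
      (𝓝 (∫ y, ({x₀} : Set TT).indicator (fun _ => (1 : ℝ)) y ∂ν x₀)) := by
    refine tendsto_integral_of_dominated_convergence (fun _ => 1)
      (fun n => (continuous_const.mul (pk_cont (hr n))).aestronglyMeasurable) (integrable_const _)
      (fun n => .of_forall fun y => ?_) (.of_forall fun y => ?_)
    · have h2 : 1 - rr n ≤ ‖ee y - rr n * ee x₀‖ := by
        have := norm_sub_norm_le (ee y) (rr n * ee x₀)
        rwa [norm_mul, ee_norm, ee_norm, norm_real, Real.norm_eq_abs, abs_of_pos (rr_pos n),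
          mul_one] at this
      have := hr1 n
      rw [hg, Real.norm_eq_abs, abs_of_nonneg (by positivity), div_le_one (pow_pos (by linarith) 2)]
      gcongr
    · simp_rw [hg]
      by_cases hy : y = x₀
      · subst hy
        refine tendsto_const_nhds.congr fun n => ?_
        have := hr1 n
        rw [show ee y - rr n * ee y = ((1 - rr n : ℝ) : ℂ) * ee y by push_cast; ring, norm_mul,
          ee_norm, norm_real, Real.norm_eq_abs, abs_of_pos this, mul_one, div_self (by positivity)]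
        simp
      · have h3 : ee y - ((1 : ℝ) : ℂ) * ee x₀ ≠ 0 := by
          simpa [sub_eq_zero] using fun e => hy (ee_inj e)
        have h4 : ContinuousAt (fun r : ℝ => (1 - r) ^ 2 / ‖ee y - r * ee x₀‖ ^ 2) 1 :=
          ContinuousAt.div (by fun_prop) (by fun_prop) (pow_ne_zero _ (norm_ne_zero_iff.2 h3))
        simpa [hy, Function.comp_def] using h4.tendsto.comp rr_tendsto
  rw [integral_indicator (measurableSet_singleton _), setIntegral_const, smul_eq_mul, mul_one] at h1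
  refine tendsto_nhds_unique h1 ?_
  set d : ℕ → ℂ := fun n => (φ (rr n * ee x₀) - ee x₀) / (rr n * ee x₀ - ee x₀) with hd
  have h5 : Tendsto d atTop (𝓝 α) := hder.comp rr_tendsto'
  have h6 : Tendsto (fun n => (2 * (d n).re - (1 - rr n) * ‖d n‖ ^ 2) / ((1 + rr n) * ‖d n‖ ^ 2))
      atTop (𝓝 ((2 * (α : ℂ).re - (1 - 1) * ‖(α : ℂ)‖ ^ 2) / ((1 + 1) * ‖(α : ℂ)‖ ^ 2))) :=
    ((((continuous_re.tendsto _).comp h5).const_mul 2).sub
      ((rr_tendsto.const_sub 1).mul (h5.norm.pow 2))).div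
      ((rr_tendsto.const_add 1).mul (h5.norm.pow 2)) (by simp [hα.ne'])
  rw [show (2 * (α : ℂ).re - (1 - 1) * ‖(α : ℂ)‖ ^ 2) / ((1 + 1) * ‖(α : ℂ)‖ ^ 2) = 1 / α by
    simp only [ofReal_re, norm_real, Real.norm_eq_abs, sq_abs]; field_simp; ring] at h6
  refine h6.congr' ?_
  filter_upwards [h5.eventually_ne (by exact_mod_cast hα.ne' : (α : ℂ) ≠ 0)] with n hn
  have h7 : φ (rr n * ee x₀) = ee x₀ * (1 - (1 - rr n : ℝ) * d n) := by
    have : (rr n : ℂ) * ee x₀ - ee x₀ ≠ 0 := by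
      rw [← sub_one_mul]
      exact mul_ne_zero (by exact_mod_cast (sub_neg.2 (rr_lt n)).ne) (ee_ne _)
    have h8 := div_mul_cancel₀ (φ (rr n * ee x₀) - ee x₀) this
    push_cast
    linear_combination -h8
  have h9 := norm_ne_zero_iff.2 hn
  have h10 := rr_pos n
  have h11 := hr1 n
  rw [integral_const_mul, hν.rep _ _ (hr n), h7, pk, ← mul_one_sub, sub_sub_cancel, norm_mul,
    norm_mul, norm_mul, ee_norm, one_mul, one_mul, norm_real, Real.norm_eq_abs, abs_of_pos h11,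
    ← normSq_eq_norm_sq (1 - _), normSq_sub, normSq_mul, normSq_ofReal, normSq_eq_norm_sq (d n)]
  simp only [map_one, one_mul, map_mul, conj_ofReal, re_ofReal_mul, conj_re]
  field_simp
  ring

lemma Ker.gen_lower (hν : Ker φ ν) (h : IsBdry φ S) (hα : 0 < α) (hm : (ν x₀).real {x₀} = 1 / α)
    (hp : ∀ j x, 0 < rk ν E j x) : 2 / √α + (ν x₀).real {x₀}ᶜ / E ≤ E := by
  have := hν.fin x₀
  set m := (ν x₀).real {x₀}ᶜ
  have hE : 0 < E := hp 0 x₀
  have hs : 0 < √α := Real.sqrt_pos.2 hα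
  have h1 : ∀ j, rk ν E (j + 1) x₀ ≤ E - m / E - 1 / α * (rk ν E j x₀)⁻¹ := fun j => by
    have hc : Continuous fun y => (rk ν E j y)⁻¹ :=
      (rk_cont hν h fun i _ => hp i).inv₀ fun y => (hp j y).ne'
    have h2 := integral_add_compl (measurableSet_singleton x₀) (int_cont hc (ν x₀))
    have h3 := setIntegral_ge_of_const_le_real (μ := ν x₀) (s := {x₀}ᶜ) (c := E⁻¹)
      (measurableSet_singleton x₀).compl (measure_ne_top _ _)
      (fun y _ => inv_anti₀ (hp j y) (rk_le (fun i _ => hp i) y)) (int_cont hc _).integrableOn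
    rw [integral_singleton, hm, smul_eq_mul] at h2
    simp only [rk]
    rw [← h2, div_eq_inv_mul m]
    linarith
  have h4 : ∀ k : ℕ, 2 * Real.cos (Real.pi / (k + 2)) ≤ √α * (E - m / E) := fun k => by
    refine cos_le (ρ := fun j => √α * rk ν E (j + 1) x₀) ?_ (fun j _ => mul_pos hs (hp _ _))
      (mul_pos hs (hp _ _)).le fun j _ => ?_
    · have := h1 0
      have h5 : 0 ≤ 1 / α * (rk ν E 0 x₀)⁻¹ := by have := hp 0 x₀; positivity
      gcongr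
      linarith
    · have h5 := mul_le_mul_of_nonneg_left (h1 (j + 1)) hs.le
      have h6 : √α * (1 / α * (rk ν E (j + 1) x₀)⁻¹) = 1 / (√α * rk ν E (j + 1) x₀) := by
        have := hp (j + 1) x₀
        field_simp
        exact Real.sq_sqrt hα.le
      rw [mul_sub, h6] at h5
      exact h5
  have h2 : Tendsto (fun k : ℕ => Real.pi / (k + 2)) atTop (𝓝 0) :=
    tendsto_const_nhds.div_atTop (tendsto_atTop_add_const_right _ _ tendsto_natCast_atTop_atTop)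
  have h7 := le_of_tendsto' (((Real.continuous_cos.tendsto 0).comp h2).const_mul 2) h4
  rw [Real.cos_zero, mul_one, mul_comm, ← div_le_iff₀ hs] at h7
  linarith

lemma aut_of_pois (hd : DifferentiableOn ℂ φ (ball 0 1)) (hm : Set.MapsTo φ (ball 0 1) (ball 0 1))
    {ω : ℂ} (hω : ‖ω‖ = 1) {t : ℝ} (ht : 0 < t)
    (h : ∀ z : ℂ, ‖z‖ < 1 → pois (φ z) ω = t * pois z ω) :
    ∃ l a : ℂ, ‖l‖ = 1 ∧ ‖a‖ < 1 ∧ ∀ z : ℂ, ‖z‖ < 1 → φ z = l * (z - a) / (1 - conj a * z) := by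
  have hne : ∀ z : ℂ, ‖z‖ < 1 → ω - z ≠ 0 := fun z hz e => by
    rw [← sub_eq_zero.1 e, hω] at hz
    exact lt_irrefl _ hz
  have hlt : ∀ z : ℂ, ‖z‖ < 1 → ‖φ z‖ < 1 := fun z hz =>
    mem_ball_zero_iff.1 (hm (mem_ball_zero_iff.2 hz))
  have h1 : DifferentiableOn ℂ (fun z => (ω + φ z) / (ω - φ z) - t * ((ω + z) / (ω - z)))
      (ball 0 1) :=
    (((differentiableOn_const _).add hd).div ((differentiableOn_const _).sub hd)
      fun z hz => hne _ (hlt z (mem_ball_zero_iff.1 hz))).sub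
      ((DifferentiableOn.div (by fun_prop) (by fun_prop)
        fun z hz => hne z (mem_ball_zero_iff.1 hz)).const_mul _)
  obtain ⟨c, hc⟩ := (h1.analyticOnNhd isOpen_ball).eq_re_add_const_mul_I_of_re_eq_const (c₀ := 0)
    (fun z hz => by
      rw [sub_re, re_ofReal_mul, ← pois_re hω, ← pois_re hω, h z (mem_ball_zero_iff.1 hz), sub_self])
    isOpen_ball (isConnected_ball one_pos)
  set A : ℂ := t + 1 + c * I with hA
  set B : ℂ := t - 1 + c * I with hB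
  have hAB : ‖B‖ < ‖A‖ := by
    rw [← sq_lt_sq₀ (norm_nonneg _) (norm_nonneg _), ← normSq_eq_norm_sq, ← normSq_eq_norm_sq]
    simp only [hA, hB, normSq_apply, add_re, sub_re, ofReal_re, one_re, mul_re, I_re, ofReal_im,
      I_im, add_im, sub_im, one_im, mul_im]
    nlinarith
  have hA0 : 0 < ‖A‖ := (norm_nonneg _).trans_lt hAB
  have hA1 : A ≠ 0 := norm_pos_iff.1 hA0
  have hA2 : conj A ≠ 0 := by simpa using hA1
  have ha : ‖-(B * ω / conj A)‖ < 1 := by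
    rw [norm_neg, norm_div, norm_mul, hω, mul_one, norm_conj, div_lt_one hA0]
    exact hAB
  refine ⟨conj A / A, -(B * ω / conj A), by rw [norm_div, norm_conj, div_self hA0.ne'], ha,
    fun z hz => ?_⟩
  have h2 := hc z (mem_ball_zero_iff.2 hz)
  have h3 := hne z hz
  have h4 := hne _ (hlt z hz)
  have h5 : ω * conj ω = 1 := by rw [mul_conj, normSq_eq_norm_sq, hω]; simp
  have h6 : conj A = t + 1 - c * I := by simp [hA, sub_eq_add_neg]
  have h7 : conj B = t - 1 - c * I := by simp [hB, sub_eq_add_neg]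
  rw [eq_div_iff (den_ne' ha hz.le)]
  simp only [map_neg, map_div₀, map_mul, conj_conj]
  field_simp at h2 ⊢
  rw [h6, h7, hA, hB]
  push_cast at h2
  linear_combination (conj ω) * h2 + (φ z * (t + 1 + c * I) - z * (t + 1 - c * I) -
    ω * (t - 1 + c * I)) * (-1) * h5

theorem hyp_lower (hφ : IsInnerFn φ) {ω : ℂ} (hω : ‖ω‖ = 1)
    (hder : Tendsto (fun r : ℝ => (φ (r * ω) - ω) / (r * ω - ω)) (𝓝[<] 1) (𝓝 α)) :
    1 / √α ≤ sSup (norm '' numRange φ) ∧ (sSup (norm '' numRange φ) = 1 / √α →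
      ∃ l a : ℂ, ‖l‖ = 1 ∧ ‖a‖ < 1 ∧ ∀ z : ℂ, ‖z‖ < 1 → φ z = l * (z - a) / (1 - conj a * z)) := by
  obtain ⟨S, h⟩ := exists_bdry hφ
  obtain ⟨μ, hμ⟩ := exists_clark hφ.1 hφ.2.1
  have hα := (iterate_bound hφ.1 hφ.2.1 hω hder).1
  rw [show numRange φ = WW S from Set.ext h.mem_numRange]
  obtain ⟨x₀, rfl⟩ : ∃ x, ee x = ω := ⟨_, ee_lift hω⟩
  have hν := hμ.ker
  set ν := fun x => (μ (ee x)).map lift
  have := hν.fin x₀
  have hm := hν.atom hα hder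
  have h1 := hν.gen_lower h hα hm fun j => lower hν h le_rfl j j le_rfl
  have h2 := w_nonneg h
  have h3 : 0 ≤ (ν x₀).real {x₀}ᶜ / (2 * sSup (norm '' WW S)) := by positivity
  rw [← mul_one_div 2] at h1
  refine ⟨by linarith, fun e => aut_of_pois hφ.1 hφ.2.1 hω (t := 1 / α) (by positivity)
    fun z hz => ?_⟩
  have h4 : (ν x₀).real {x₀}ᶜ = 0 := by
    have h5 : (ν x₀).real {x₀}ᶜ / (2 * sSup (norm '' WW S)) = 0 := by linarith
    rcases div_eq_zero_iff.1 h5 with h6 | h6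
    · exact h6
    · linarith
  have h7 := integral_add_compl (measurableSet_singleton x₀) (int_cont (pk_cont hz) (ν x₀))
  rw [integral_singleton, hm, setIntegral_measure_zero _
    ((measureReal_eq_zero_iff (measure_ne_top _ _)).1 h4), hν.rep _ _ hz, add_zero] at h7
  exact h7.symm

end Pool.Agent.Work.MP_f96e05_an.NR
end

-- merged part: Pool.Agent.Work.MP_f96e05_an.NR.Aut
section
/-!
Hyperbolic automorphisms.
-/

set_option autoImplicit false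

open MeasureTheory Filter Topology Complex Metric
open scoped ComplexConjugate InnerProductSpace

namespace Pool.Agent.Work.MP_f96e05_an.NR

variable {φ : ℂ → ℂ} {l a ω ω' ξ z ζ : ℂ} {E α : ℝ}

/-- a disc automorphism -/
noncomputable def mob (l a z : ℂ) : ℂ := l * (z - a) / (1 - conj a * z)

/-- its inverse -/
noncomputable def imob (l a ζ : ℂ) : ℂ := (ζ + l * a) / (l + conj a * ζ)

/-- the modulus of its derivative -/
noncomputable def jac (a ξ : ℂ) : ℝ := (1 - ‖a‖ ^ 2) / ‖1 - conj a * ξ‖ ^ 2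

lemma one_sub_pos (ha : ‖a‖ < 1) : 0 < 1 - ‖a‖ ^ 2 := by nlinarith [norm_nonneg a]

lemma jac_pos (ha : ‖a‖ < 1) (hξ : ‖ξ‖ ≤ 1) : 0 < jac a ξ :=
  div_pos (one_sub_pos ha) (pow_pos (norm_pos_iff.2 (den_ne' ha hξ)) 2)

lemma mob_sub (ha : ‖a‖ < 1) (hξ : ‖ξ‖ ≤ 1) (hz : ‖z‖ ≤ 1) : mob l a ξ - mob l a z =
    l * ((1 - ‖a‖ ^ 2 : ℝ) : ℂ) * (ξ - z) / ((1 - conj a * ξ) * (1 - conj a * z)) := by
  rw [mob, mob, div_sub_div _ _ (den_ne' ha hξ) (den_ne' ha hz), ← normSq_eq_norm_sq]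
  push_cast
  rw [← mul_conj]
  congr 1
  ring

lemma mob_dist (hl : ‖l‖ = 1) (ha : ‖a‖ < 1) (hξ : ‖ξ‖ ≤ 1) (hz : ‖z‖ ≤ 1) :
    ‖mob l a ξ - mob l a z‖ ^ 2 = jac a ξ * jac a z * ‖ξ - z‖ ^ 2 := by
  have h1 := norm_ne_zero_iff.2 (den_ne' ha hξ)
  have h2 := norm_ne_zero_iff.2 (den_ne' ha hz)
  rw [mob_sub ha hξ hz, norm_div, norm_mul, norm_mul, norm_mul, hl, norm_real, Real.norm_eq_abs,
    abs_of_pos (one_sub_pos ha), jac, jac]
  field_simp

lemma mob_norm (hl : ‖l‖ = 1) (ha : ‖a‖ < 1) (hz : ‖z‖ ≤ 1) :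
    1 - ‖mob l a z‖ ^ 2 = jac a z * (1 - ‖z‖ ^ 2) := by
  have h1 := norm_ne_zero_iff.2 (den_ne' ha hz)
  rw [mob, norm_div, norm_mul, hl, one_mul, jac, div_mul_eq_mul_div, ← mob_id', div_pow,
    one_sub_div (pow_ne_zero 2 h1)]

lemma mob_unit (hl : ‖l‖ = 1) (ha : ‖a‖ < 1) (hξ : ‖ξ‖ = 1) : ‖mob l a ξ‖ = 1 := by
  have := mob_norm hl ha hξ.le
  rw [hξ] at this
  nlinarith [norm_nonneg (mob l a ξ)]

lemma iden_ne (hl : ‖l‖ = 1) (ha : ‖a‖ < 1) (hζ : ‖ζ‖ = 1) : l + conj a * ζ ≠ 0 := fun e => by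
  have := congrArg norm (eq_neg_of_add_eq_zero_left e)
  rw [norm_neg, norm_mul, norm_conj, hl, hζ] at this
  linarith

lemma imob_unit (hl : ‖l‖ = 1) (ha : ‖a‖ < 1) (hζ : ‖ζ‖ = 1) : ‖imob l a ζ‖ = 1 := by
  have h1 : l * conj l = 1 := by rw [mul_conj, normSq_eq_norm_sq, hl]; simp
  have h2 : ζ * conj ζ = 1 := by rw [mul_conj, normSq_eq_norm_sq, hζ]; simp
  have h3 : ζ + l * a = conj (l + conj a * ζ) * (l * ζ) := by
    simp only [map_add, map_mul, conj_conj]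
    linear_combination (-ζ) * h1 - l * a * h2
  rw [imob, norm_div, h3, norm_mul, norm_mul, norm_conj, hl, hζ, mul_one, mul_one,
    div_self (norm_ne_zero_iff.2 (iden_ne hl ha hζ))]

lemma mob_imob (hl : ‖l‖ = 1) (ha : ‖a‖ < 1) (hζ : ‖ζ‖ = 1) : mob l a (imob l a ζ) = ζ := by
  rw [mob, div_eq_iff (den_ne' ha (imob_unit hl ha hζ).le), imob]
  have := iden_ne hl ha hζ
  rw [mul_comm] at this
  field_simp
  ring

lemma imob_mob (hl : ‖l‖ = 1) (ha : ‖a‖ < 1) (hξ : ‖ξ‖ = 1) : imob l a (mob l a ξ) = ξ := by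
  rw [imob, div_eq_iff (iden_ne hl ha (mob_unit hl ha hξ)), mob]
  have := den_ne' ha hξ.le
  rw [mul_comm] at this
  field_simp
  ring

lemma pois_mob (hl : ‖l‖ = 1) (ha : ‖a‖ < 1) (hξ : ‖ξ‖ = 1) (hz : ‖z‖ < 1) :
    pois (mob l a z) (mob l a ξ) = (jac a ξ)⁻¹ * pois z ξ := by
  have h1 := jac_pos ha hξ.le
  have h2 := jac_pos ha hz.le
  rw [pois, mob_norm hl ha hz.le, mob_dist hl ha hξ.le hz.le, pois]
  field_simp

/-- the Clark measures of an automorphism -/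
noncomputable def autμ (l a ζ : ℂ) : Measure ℂ :=
  ENNReal.ofReal (jac a (imob l a ζ))⁻¹ • Measure.dirac (imob l a ζ)

lemma autμ_int (hl : ‖l‖ = 1) (ha : ‖a‖ < 1) (hξ : ‖ξ‖ = 1) (g : ℂ → ℝ) :
    ∫ x, g x ∂autμ l a (mob l a ξ) = (jac a ξ)⁻¹ * g ξ := by
  rw [autμ, imob_mob hl ha hξ, integral_smul_measure, integral_dirac,
    ENNReal.toReal_ofReal (inv_pos.2 (jac_pos ha hξ.le)).le, smul_eq_mul]

lemma autμ_clark (hl : ‖l‖ = 1) (ha : ‖a‖ < 1) (hφ : ∀ z : ℂ, ‖z‖ < 1 → φ z = mob l a z) :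
    IsClark φ (autμ l a) := fun ζ hζ => by
  have h1 := imob_unit hl ha hζ
  refine ⟨⟨by simp [autμ]⟩, Measure.ae_smul_measure (by simpa using h1) _, fun z hz => ?_⟩
  rw [← mob_imob hl ha hζ, autμ_int hl ha h1, hφ z hz, pois_mob hl ha h1 hz]

lemma frac_mob (hl : ‖l‖ = 1) (ha : ‖a‖ < 1) (hξ : ‖ξ‖ = 1) (k : ℕ) :
    frac (autμ l a) E (k + 1) (mob l a ξ) = E - (jac a ξ)⁻¹ * (frac (autμ l a) E k ξ)⁻¹ := by
  rw [frac_succ, autμ_int hl ha hξ]

lemma der_eq (hl : ‖l‖ = 1) (ha : ‖a‖ < 1) (hφ : ∀ z : ℂ, ‖z‖ < 1 → φ z = mob l a z)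
    (hω : ‖ω‖ = 1) (hα : 0 < α)
    (hder : Tendsto (fun r : ℝ => (φ (r * ω) - ω) / (r * ω - ω)) (𝓝[<] 1) (𝓝 α)) :
    mob l a ω = ω ∧ jac a ω = α := by
  have hr : Tendsto (fun r : ℝ => (r : ℂ)) (𝓝[<] 1) (𝓝 1) :=
    (continuous_ofReal.tendsto 1).mono_left nhdsWithin_le_nhds
  have dω := den_ne' ha hω.le
  have hin : ∀ r ∈ Set.Ioo (0 : ℝ) 1, ‖(r : ℂ) * ω‖ < 1 := fun r hr => by
    simp [hω, abs_of_pos hr.1, hr.2]
  have hne : ∀ r ∈ Set.Ioo (0 : ℝ) 1, (r : ℂ) * ω - ω ≠ 0 := fun r hr h => by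
    have := hin r hr
    rw [sub_eq_zero.1 h, hω] at this
    exact lt_irrefl _ this
  have hev := Ioo_mem_nhdsLT (show (0 : ℝ) < 1 by norm_num)
  have fix : mob l a ω = ω := by
    have h1 : Tendsto (fun r : ℝ => mob l a (r * ω)) (𝓝[<] 1) (𝓝 (mob l a (1 * ω))) :=
      (((hr.mul_const ω).sub_const a).const_mul l).div
        (((hr.mul_const ω).const_mul _).const_sub 1) (by rwa [one_mul])
    have h2 := (hder.mul ((hr.mul_const ω).sub_const ω)).add_const ω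
    simp only [one_mul, sub_self, zero_add, mul_zero] at h1 h2
    refine tendsto_nhds_unique h1 (h2.congr' ?_)
    filter_upwards [hev] with r hr
    rw [div_mul_cancel₀ _ (hne r hr), sub_add_cancel, hφ _ (hin r hr)]
  refine ⟨fix, ?_⟩
  have h1 : Tendsto (fun r : ℝ => l * ((1 - ‖a‖ ^ 2 : ℝ) : ℂ) / ((1 - conj a * (r * ω)) *
      (1 - conj a * ω))) (𝓝[<] 1)
      (𝓝 (l * ((1 - ‖a‖ ^ 2 : ℝ) : ℂ) / ((1 - conj a * (1 * ω)) * (1 - conj a * ω)))) :=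
    tendsto_const_nhds.div ((((hr.mul_const ω).const_mul _).const_sub _).mul_const _)
      (by rw [one_mul]; exact mul_ne_zero dω dω)
  have h2 := tendsto_nhds_unique h1 (hder.congr' (by
    filter_upwards [hev] with r hr
    have h3 := mob_sub (l := l) ha (hin r hr).le hω.le
    rw [fix] at h3
    rw [hφ _ (hin r hr), h3, div_right_comm, mul_div_cancel_right₀ _ (hne r hr)]))
  have h3 := congrArg norm h2
  rw [one_mul, norm_div, norm_mul, norm_mul, hl, one_mul, norm_real, norm_real, Real.norm_eq_abs,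
    Real.norm_eq_abs, abs_of_pos (one_sub_pos ha), abs_of_pos hα, ← sq] at h3
  exact h3

lemma tri (hζ : ‖ζ‖ = 1) (hω : ‖ω‖ = 1) (hω' : ‖ω'‖ = 1) :
    (‖ζ - ω‖ ^ 2 + ‖ζ - ω'‖ ^ 2 - ‖ω - ω'‖ ^ 2) ^ 2 =
      (4 - ‖ω - ω'‖ ^ 2) * (‖ζ - ω‖ ^ 2 * ‖ζ - ω'‖ ^ 2) := by
  have key : ∀ u v : ℂ, ‖u‖ = 1 → ‖v‖ = 1 →
      ((‖u - v‖ ^ 2 : ℝ) : ℂ) = -(u - v) ^ 2 / (u * v) := fun u v hu hv => by
    have h1 : u * conj u = 1 := by rw [mul_conj, normSq_eq_norm_sq, hu]; simp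
    have h2 : v * conj v = 1 := by rw [mul_conj, normSq_eq_norm_sq, hv]; simp
    rw [← normSq_eq_norm_sq, ← mul_conj, eq_div_iff (mul_ne_zero (left_ne_zero_of_mul_eq_one h1)
      (left_ne_zero_of_mul_eq_one h2)), map_sub]
    linear_combination (u - v) * v * h1 - (u - v) * u * h2
  have h1 : ζ ≠ 0 := norm_ne_zero_iff.1 (by simp [hζ])
  have h2 : ω ≠ 0 := norm_ne_zero_iff.1 (by simp [hω])
  have h3 : ω' ≠ 0 := norm_ne_zero_iff.1 (by simp [hω'])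
  refine ofReal_inj.1 ?_
  rw [ofReal_pow, ofReal_sub, ofReal_add, ofReal_mul, ofReal_mul, ofReal_sub, key _ _ hζ hω,
    key _ _ hζ hω', key _ _ hω hω']
  push_cast
  field_simp
  ring

lemma ineq {p q D : ℝ} (hα : 0 < α) (hα1 : α < 1) (hp : 0 ≤ p) (hq : 0 ≤ q) (hD : 0 < D)
    (hB : 0 < α * q + p) (h1 : 2 * (1 + α) ≤ D) (h2 : (p + q - D) ^ 2 = (4 - D) * (p * q)) :
    (q + α * p) / D + α * D / (α * q + p) ≤ 2 := by
  rw [div_add_div _ _ hD.ne' hB.ne', div_le_iff₀ (by positivity)]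
  have h3 : (p + q - D) ^ 2 ≤ 2 * (1 - α) * (p * q) := by
    rw [h2]
    gcongr
    linarith
  have h4 : 0 ≤ (1 - α) * (p + q - D - 2 * p) ^ 2 := mul_nonneg (by linarith) (sq_nonneg _)
  have h5 := mul_le_mul_of_nonneg_left h3 (by linarith : 0 ≤ 1 + α)
  nlinarith

section
variable (hl : ‖l‖ = 1) (ha : ‖a‖ < 1) (hω : ‖ω‖ = 1) (hω' : ‖ω'‖ = 1) (hne : ω' ≠ ω)
  (f1 : mob l a ω = ω) (f2 : mob l a ω' = ω') (hj : jac a ω = α)
include hl ha hω hω' hne f1 f2 hj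

lemma orbit (hξ : ‖ξ‖ = 1) : ‖mob l a ξ - ω‖ ^ 2 = jac a ξ * α * ‖ξ - ω‖ ^ 2 ∧
    α * ‖mob l a ξ - ω'‖ ^ 2 = jac a ξ * ‖ξ - ω'‖ ^ 2 := by
  have h1 := mob_dist hl ha hξ.le hω.le
  have h2 := mob_dist hl ha hξ.le hω'.le
  have h3 := mob_dist hl ha hω'.le hω.le
  rw [f1, hj] at h1 h3
  rw [f2] at h2 h3
  have h4 : jac a ω' * α = 1 :=
    (mul_eq_right₀ (pow_ne_zero 2 (norm_ne_zero_iff.2 (sub_ne_zero.2 hne)))).1 h3.symm
  refine ⟨h1, ?_⟩
  rw [h2]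
  linear_combination jac a ξ * ‖ξ - ω'‖ ^ 2 * h4

lemma far_pos (hα1 : α < 1) (hd : 2 * (1 + α) ≤ ‖ω - ω'‖ ^ 2) (k : ℕ) (ζ : ℂ) (hζ : ‖ζ‖ = 1) :
    0 < frac (autμ l a) (2 / √α) k ζ := by
  have hα : 0 < α := hj ▸ jac_pos ha hω.le
  have hs : 0 < √α := Real.sqrt_pos.2 hα
  have hs2 : √α ^ 2 = α := Real.sq_sqrt hα.le
  set D := ‖ω - ω'‖ ^ 2 with hD
  have hD0 : 0 < D := by linarith
  have hpos : ∀ ζ : ℂ, ∀ s t : ℝ, 0 < s → 0 < t → 0 < s * ‖ζ - ω'‖ ^ 2 + t * ‖ζ - ω‖ ^ 2 :=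
    fun ζ s t hs ht => by
      by_cases h : ζ = ω
      · have := norm_pos_iff.2 (sub_ne_zero.2 (h ▸ hne.symm : ζ ≠ ω'))
        positivity
      · have := norm_pos_iff.2 (sub_ne_zero.2 h)
        positivity
  have hA : ∀ ζ : ℂ, 0 < (‖ζ - ω'‖ ^ 2 + α * ‖ζ - ω‖ ^ 2) / D / √α := fun ζ => by
    have := hpos ζ 1 α one_pos hα
    rw [one_mul] at this
    positivity
  have hB : ∀ ζ : ℂ, 0 < α * ‖ζ - ω'‖ ^ 2 + ‖ζ - ω‖ ^ 2 := fun ζ => by
    simpa using hpos ζ α 1 hα one_pos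
  have hI : ∀ ζ : ℂ, ‖ζ‖ = 1 → (‖ζ - ω'‖ ^ 2 + α * ‖ζ - ω‖ ^ 2) / D / √α +
      α * D / (α * ‖ζ - ω'‖ ^ 2 + ‖ζ - ω‖ ^ 2) / √α ≤ 2 / √α := fun ζ hζ => by
    rw [← add_div]
    gcongr
    exact ineq hα hα1 (sq_nonneg _) (sq_nonneg _) hD0 (hB ζ) hd (tri hζ hω hω')
  refine (hA ζ).trans_le ?_
  induction k generalizing ζ with
  | zero =>
    have := hB ζ
    have h2 : 0 ≤ α * D / (α * ‖ζ - ω'‖ ^ 2 + ‖ζ - ω‖ ^ 2) / √α := by positivity
    show _ ≤ 2 / √α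
    linarith [hI ζ hζ]
  | succ k ih =>
    obtain ⟨ξ, hξ, rfl⟩ : ∃ ξ, ‖ξ‖ = 1 ∧ mob l a ξ = ζ :=
      ⟨_, imob_unit hl ha hζ, mob_imob hl ha hζ⟩
    obtain ⟨o1, o2⟩ := orbit hl ha hω hω' hne f1 f2 hj hξ
    have hJ := jac_pos ha hξ.le
    have h1 := mul_le_mul_of_nonneg_left (inv_anti₀ (hA ξ) (ih ξ hξ)) (inv_pos.2 hJ).le
    have h2 : (jac a ξ)⁻¹ * ((‖ξ - ω'‖ ^ 2 + α * ‖ξ - ω‖ ^ 2) / D / √α)⁻¹ =
        α * D / (α * ‖mob l a ξ - ω'‖ ^ 2 + ‖mob l a ξ - ω‖ ^ 2) / √α := by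
      have h3 := hpos ξ 1 α one_pos hα
      rw [one_mul] at h3
      rw [o1, o2, show jac a ξ * ‖ξ - ω'‖ ^ 2 + jac a ξ * α * ‖ξ - ω‖ ^ 2 =
        jac a ξ * (‖ξ - ω'‖ ^ 2 + α * ‖ξ - ω‖ ^ 2) by ring]
      field_simp
      exact hs2
    rw [frac_mob hl ha hξ]
    linarith [hI _ hζ]

lemma near_not (hα1 : α < 1) (hd : ‖ω - ω'‖ ^ 2 ≤ 2) :
    ¬ ∀ (k : ℕ) (ζ : ℂ), ‖ζ‖ = 1 → 0 < frac (autμ l a) (2 / √α) k ζ := fun hp => by
  have hα : 0 < α := hj ▸ jac_pos ha hω.le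
  have hs : 0 < √α := Real.sqrt_pos.2 hα
  have hs2 : √α ^ 2 = α := Real.sq_sqrt hα.le
  set ζ : ℕ → ℂ := fun k => (mob l a)^[k] (-ω') with hζ
  have hζ1 : ∀ k, ζ (k + 1) = mob l a (ζ k) := fun k => Function.iterate_succ_apply' _ _ _
  have hu : ∀ k, ‖ζ k‖ = 1 := fun k => by
    induction k with
    | zero => simpa [hζ] using hω'
    | succ k ih => rw [hζ1]; exact mob_unit hl ha ih
  have ho := fun k => orbit hl ha hω hω' hne f1 f2 hj (hu k)
  have hJ := fun k => jac_pos ha (hu k).le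
  set q : ℕ → ℝ := fun k => ‖ζ k - ω'‖ ^ 2 with hq
  have hq0 : q 0 = 4 := by
    show ‖-ω' - ω'‖ ^ 2 = 4
    rw [show -ω' - ω' = -2 * ω' by ring, norm_mul, hω']
    norm_num
  have hq1 : ∀ k, α * q (k + 1) = jac a (ζ k) * q k := fun k => by
    simp only [hq, hζ1]; exact (ho k).2
  have hqp : ∀ k, 0 < q k := fun k => by
    induction k with
    | zero => rw [hq0]; norm_num
    | succ k ih => exact (mul_pos_iff_of_pos_left hα).1 (hq1 k ▸ mul_pos (hJ k) ih)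
  have h4 : ∀ u v : ℂ, ‖u‖ = 1 → ‖v‖ = 1 → ‖u - v‖ ^ 2 ≤ 4 := fun u v hu hv => by
    have := norm_sub_le u v
    nlinarith [norm_nonneg (u - v)]
  have hp1 : ∀ k, ‖ζ k - ω‖ ^ 2 ≤ (α ^ 2) ^ k * q k := fun k => by
    induction k with
    | zero => simpa [hq0] using h4 _ _ (hu 0) hω
    | succ k ih =>
      rw [hζ1, (ho k).1]
      calc _ ≤ jac a (ζ k) * α * ((α ^ 2) ^ k * q k) := by have := hJ k; gcongr
        _ = _ := by linear_combination (-α * (α ^ 2) ^ k) * hq1 k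
  have ht : Tendsto ζ atTop (𝓝 ω) := by
    have h5 := (tendsto_pow_atTop_nhds_zero_of_lt_one (sq_nonneg α) (by nlinarith)).mul_const 4
    rw [zero_mul] at h5
    have h6 : Tendsto (fun k => ‖ζ k - ω‖ ^ 2) atTop (𝓝 0) := squeeze_zero (fun k => sq_nonneg _)
      (fun k => (hp1 k).trans (by gcongr; exact h4 _ _ (hu k) hω')) h5
    rw [tendsto_iff_norm_sub_tendsto_zero]
    simpa using h6.sqrt
  have hD0 : 0 < ‖ω - ω'‖ ^ 2 := pow_pos (norm_pos_iff.2 (sub_ne_zero.2 hne.symm)) 2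
  have htq : Tendsto (fun k => (q (k + 1))⁻¹) atTop (𝓝 (‖ω - ω'‖ ^ 2)⁻¹) :=
    ((((ht.sub_const ω').norm.pow 2).comp (tendsto_add_atTop_nat 1))).inv₀ hD0.ne'
  set τ : ℕ → ℝ := fun k => √α * frac (autμ l a) (2 / √α) (k + 1) (ζ k) / q k with hτ
  have hτp : ∀ k, 0 < τ k := fun k => div_pos (mul_pos hs (hp _ _ (hu k))) (hqp k)
  have hτ1 : ∀ k, τ k * (τ k - τ (k + 1)) = (τ k - (q (k + 1))⁻¹) ^ 2 := fun k => by
    have h7 : τ (k + 1) = (2 - (q (k + 1))⁻¹ / τ k) / q (k + 1) := by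
      have h8 := hp (k + 1) _ (hu k)
      have h9 := hqp k
      have h10 := hqp (k + 1)
      have h11 := hJ k
      have h12 : jac a (ζ k) = √α ^ 2 * q (k + 1) / q k := by
        rw [hs2, hq1, mul_div_cancel_right₀ _ h9.ne']
      simp only [hτ]
      rw [hζ1, frac_mob hl ha (hu k), h12]
      field_simp
    have := hτp k
    have := hqp (k + 1)
    rw [h7]
    field_simp
    ring
  have hanti : Antitone τ := antitone_nat_of_succ_le fun k => by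
    have := (mul_nonneg_iff_of_pos_left (hτp k)).1 (hτ1 k ▸ sq_nonneg _)
    linarith
  have hlim := tendsto_atTop_ciInf hanti ⟨0, by rintro _ ⟨k, rfl⟩; exact (hτp k).le⟩
  set t := ⨅ k, τ k
  have h13 := tendsto_nhds_unique ((hlim.mul (hlim.sub (hlim.comp (tendsto_add_atTop_nat 1)))).congr
    hτ1) ((hlim.sub htq).pow 2)
  have h14 : t = (‖ω - ω'‖ ^ 2)⁻¹ := by
    rw [sub_self, mul_zero] at h13
    exact sub_eq_zero.1 (pow_eq_zero_iff two_ne_zero |>.1 h13.symm)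
  have h15 : t ≤ τ 0 := hanti.le_of_tendsto hlim 0
  have h16 : τ 0 < 1 / 2 := by
    have h17 := imob_unit hl ha (hu 0)
    have h18 := jac_pos ha h17.le
    have h19 : frac (autμ l a) (2 / √α) (0 + 1) (ζ 0) < 2 / √α := by
      rw [← mob_imob hl ha (hu 0), frac_mob hl ha h17]
      exact sub_lt_self _ (mul_pos (inv_pos.2 h18) (inv_pos.2 (hp 0 _ h17)))
    rw [lt_div_iff₀ hs] at h19
    simp only [hτ, hq0]
    linarith
  have h20 : (2 : ℝ)⁻¹ ≤ (‖ω - ω'‖ ^ 2)⁻¹ := inv_anti₀ hD0 hd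
  linarith

end

theorem closed_form (hφ : IsInnerFn φ) (hω : ‖ω‖ = 1) (hα1 : α < 1)
    (hder : Tendsto (fun r : ℝ => (φ (r * ω) - ω) / (r * ω - ω)) (𝓝[<] 1) (𝓝 α))
    (hl : ‖l‖ = 1) (ha : ‖a‖ < 1) (he : ∀ z : ℂ, ‖z‖ < 1 → φ z = mob l a z) (hω' : ‖ω'‖ = 1)
    (hne : ω' ≠ ω) (f2 : mob l a ω' = ω') :
    (2 * (1 + α) ≤ ‖ω - ω'‖ ^ 2 → sSup (norm '' numRange φ) = 1 / √α) ∧
      (‖ω - ω'‖ ^ 2 ≤ 2 → 1 / √α < sSup (norm '' numRange φ)) := by
  obtain ⟨f1, hj⟩ := der_eq hl ha he hω (iterate_bound hφ.1 hφ.2.1 hω hder).1 hder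
  have h1 := (radius hφ (autμ_clark hl ha he)).1
  have h2 := (hyp_lower hφ hω hder).1
  refine ⟨fun hd => le_antisymm ?_ h2, fun hd => h2.lt_of_ne fun e => ?_⟩
  · have := h1.2 (far_pos hl ha hω hω' hne f1 f2 hj hα1 hd)
    rw [← mul_one_div 2] at this
    linarith
  · refine near_not hl ha hω hω' hne f1 f2 hj hα1 hd ?_
    rw [← mul_one_div 2, e]
    exact h1.1

end Pool.Agent.Work.MP_f96e05_an.NR
end

-- merged part: Pool.Agent.Work.MP_f96e05_an.NR.Iff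
section
/-!
The second fixed point of a hyperbolic automorphism, and the closed form as an equivalence.
-/

set_option autoImplicit false

open Filter Topology Complex
open scoped ComplexConjugate

namespace Pool.Agent.Work.MP_f96e05_an.NR

variable {φ : ℂ → ℂ} {l a ω : ℂ} {α : ℝ}

lemma second_fixed (hl : ‖l‖ = 1) (ha : ‖a‖ < 1) (hω : ‖ω‖ = 1) (f1 : mob l a ω = ω)
    (hj : jac a ω ≠ 1) : ∃ ω' : ℂ, ‖ω'‖ = 1 ∧ ω' ≠ ω ∧ mob l a ω' = ω' := by
  have a0 : a ≠ 0 := fun e => hj (by simp [jac, e])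
  have ca : conj a ≠ 0 := by simpa using a0
  have ω0 : ω ≠ 0 := fun e => by simp [e] at hω
  have dω := den_ne' ha hω.le
  rw [mob, div_eq_iff dω] at f1
  obtain ⟨u, hu⟩ : ∃ u, conj a * ω * u = -(l * a) := ⟨-(l * a) / (conj a * ω), by field_simp⟩
  have n1 : ‖u‖ = 1 := by
    have := congrArg norm hu
    rw [norm_neg, norm_mul, norm_mul, norm_mul, norm_conj, hl, hω, mul_one, one_mul] at this
    exact mul_left_cancel₀ (norm_ne_zero_iff.2 a0) (this.trans (mul_one _).symm)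
  have s : conj a * ω + (l - 1) + conj a * u = 0 :=
    mul_left_cancel₀ ω0 (by linear_combination f1 + hu)
  refine ⟨u, n1, fun e => hj ?_, ?_⟩
  · rw [e] at s
    have h1 : l * conj l = 1 := by rw [mul_conj, normSq_eq_norm_sq, hl]; simp
    have h2 : ω * conj ω = 1 := by rw [mul_conj, normSq_eq_norm_sq, hω]; simp
    have s' := congrArg conj s
    simp only [map_add, map_mul, map_sub, conj_conj, map_one, map_zero] at s'
    rw [jac, div_eq_one_iff_eq (pow_ne_zero 2 (norm_ne_zero_iff.2 dω)), ← normSq_eq_norm_sq,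
      ← normSq_eq_norm_sq, ← ofReal_inj]
    push_cast
    rw [← mul_conj, ← mul_conj]
    simp only [map_mul, map_sub, conj_conj, map_one]
    have e1 : conj a * ω = (1 - l) / 2 := by linear_combination s / 2
    have e2 : a * conj ω = (1 - conj l) / 2 := by linear_combination s' / 2
    have e3 : a * conj a = conj a * ω * (a * conj ω) := by linear_combination (-(a * conj a)) * h2
    rw [e3, e1, e2]
    linear_combination (-1 / 2) * h1
  · rw [mob, div_eq_iff (den_ne' ha n1.le)]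
    linear_combination u * s - hu

theorem closed_iff (hφ : IsInnerFn φ) (hω : ‖ω‖ = 1) (hα1 : α < 1)
    (hder : Tendsto (fun r : ℝ => (φ (r * ω) - ω) / (r * ω - ω)) (𝓝[<] 1) (𝓝 α))
    (hgap : ∀ l a ω' : ℂ, ‖l‖ = 1 → ‖a‖ < 1 → (∀ z : ℂ, ‖z‖ < 1 → φ z = mob l a z) → ‖ω'‖ = 1 →
      ω' ≠ ω → mob l a ω' = ω' → ‖ω - ω'‖ ^ 2 ≤ 2 ∨ 2 * (1 + α) ≤ ‖ω - ω'‖ ^ 2) :
    sSup (norm '' numRange φ) = 1 / √α ↔ ∃ l a ω' : ℂ, ‖l‖ = 1 ∧ ‖a‖ < 1 ∧
      (∀ z : ℂ, ‖z‖ < 1 → φ z = mob l a z) ∧ ‖ω'‖ = 1 ∧ ω' ≠ ω ∧ mob l a ω' = ω' ∧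
      2 * (1 + α) ≤ ‖ω - ω'‖ ^ 2 := by
  refine ⟨fun h => ?_, fun ⟨l, a, ω', hl, ha, he, hω', hne, f2, hd⟩ =>
    (closed_form hφ hω hα1 hder hl ha he hω' hne f2).1 hd⟩
  obtain ⟨l, a, hl, ha, he⟩ := (hyp_lower hφ hω hder).2 h
  obtain ⟨f1, hj⟩ := der_eq hl ha he hω (iterate_bound hφ.1 hφ.2.1 hω hder).1 hder
  obtain ⟨ω', hω', hne, f2⟩ := second_fixed hl ha hω f1 (hj ▸ hα1.ne)
  exact ⟨l, a, ω', hl, ha, he, hω', hne, f2, (hgap l a ω' hl ha he hω' hne f2).resolve_left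
    fun hd => ((closed_form hφ hω hα1 hder hl ha he hω' hne f2).2 hd).ne' h⟩

end Pool.Agent.Work.MP_f96e05_an.NR
end
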