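import Pool.Agent.Work.MP_f96e05_an.FS.T2
import Pool.Agent.Work.MP_f96e05_an.Julia
import Pool.Agent.Work.MP_f96e05_an.NR.Defs

-- merged part: Pool.Agent.Work.MP_f96e05_an.NR.Alek
section
/-!
The Aleksandrov operator: it preserves continuity and is the adjoint of the composition operator.
-/

set_option autoImplicit false

open MeasureTheory Filter Topology Complex Metric
open scoped ComplexConjugate InnerProductSpace

namespace Pool.Agent.Work.MP_f96e05_an.NR

variable {φ : ℂ → ℂ} {S : TT → TT} {ν : TT → Measure TT}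

/-- Clark measures on the parametrised circle -/
structure Ker (φ : ℂ → ℂ) (ν : TT → Measure TT) : Prop where
  fin : ∀ x, IsFiniteMeasure (ν x)
  rep : ∀ x (z : ℂ), ‖z‖ < 1 → ∫ y, pk z y ∂ν x = pk (φ z) x

lemma pk_zero (y : TT) : pk 0 y = 1 := by simp [pk, ee_norm]

lemma Ker.mass (h : Ker φ ν) (x : TT) : (ν x).real Set.univ = pk (φ 0) x := by
  simpa [pk_zero] using h.rep x 0 (by simp)

lemma pk_symm (ρ : ℝ) (t y : TT) : pk (ρ * ee t) y = pk (ρ * ee y) t := by
  have e : ‖ee y - ρ * ee t‖ = ‖ee t - ρ * ee y‖ := by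
    have h1 : ee t - ρ * ee y = conj (ee y - ρ * ee t) * (ee y * ee t) := by
      simp only [map_sub, map_mul, conj_ofReal]
      linear_combination (-ee t) * ee_mul_conj y + (ρ * ee y) * ee_mul_conj t
    rw [h1, norm_mul, norm_mul, norm_conj, ee_norm, ee_norm, mul_one, mul_one]
  simp only [pk, e, norm_mul, ee_norm]

lemma pk2_cont {X : Type} [TopologicalSpace X] {a : X → ℂ} {b : X → TT} (ha : Continuous a)
    (hb : Continuous b) (h : ∀ p, ‖a p‖ < 1) : Continuous fun p => pk (a p) (b p) := by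
  have := ee_cont
  exact Continuous.div (by fun_prop) (by fun_prop)
    fun p => pow_ne_zero _ (norm_ne_zero_iff.2 (ee_sub_ne (h p) _))

lemma half_lt (t : TT) : ‖((1 / 2 : ℝ) : ℂ) * ee t‖ < 1 := by
  rw [norm_mul, ee_norm]; norm_num

lemma mom (m : Measure TT) [IsFiniteMeasure m] {G : TT → ℂ} (hG : Integrable G m) (j : ℕ) :
    ((1 / 2 : ℝ) : ℂ) ^ j * ∫ y, ee y ^ j * G y ∂m =
      ∫ t, ee t ^ j * ∫ y, (pk ((1 / 2 : ℝ) * ee t) y : ℂ) * G y ∂m ∂mm := by
  have hc := ee_cont
  have h1 : Continuous fun p : TT × TT => ee p.1 ^ j * (pk ((1 / 2 : ℝ) * ee p.1) p.2 : ℂ) := by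
    have := pk2_cont (X := TT × TT) (a := fun p => ((1 / 2 : ℝ) : ℂ) * ee p.1) (b := fun p => p.2)
      (by fun_prop) (by fun_prop) fun p => half_lt _
    fun_prop
  obtain ⟨K, hK⟩ := (isCompact_range h1.norm).bddAbove
  have h2 : Integrable (fun p : TT × TT => ee p.1 ^ j * (pk ((1 / 2 : ℝ) * ee p.1) p.2 : ℂ) * G p.2)
      (mm.prod m) := (hG.comp_snd mm).bdd_mul h1.aestronglyMeasurable
        (.of_forall fun p => hK ⟨p, rfl⟩)
  have h3 := integral_integral_swap (f := fun t y =>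
    ee t ^ j * (pk ((1 / 2 : ℝ) * ee t) y : ℂ) * G y) h2
  simp_rw [← integral_const_mul, ← mul_assoc]
  rw [h3]
  refine integral_congr_ae (.of_forall fun y => ?_)
  simp_rw [integral_mul_const, pk_symm _ _ y, mul_comm (ee _ ^ j)]
  rw [integral_pk_mul (isH_ee_pow j) (half_lt y),
    dc_ev (g := fun z => z ^ j) (Differentiable.diffContOnCl (by fun_prop)) (half_lt y), mul_pow]

lemma kern_cont (h : IsBdry φ S) (j : ℕ) : Continuous fun p : TT × TT =>
    ee p.2 ^ j * (pk (φ ((1 / 2 : ℝ) * ee p.2)) p.1 : ℂ) := by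
  have hc := ee_cont
  have h1 := dc_cont (dilate_dc h.diff (r := 1 / 2) (by rw [abs_of_pos] <;> norm_num))
  have := pk2_cont (X := TT × TT) (a := fun p => φ (((1 / 2 : ℝ) : ℂ) * ee p.2)) (b := fun p => p.1)
    (h1.comp continuous_snd) (by fun_prop) fun p => h.norm_lt (half_lt _)
  fun_prop

lemma Ker.mom (hν : Ker φ ν) (j : ℕ) (x : TT) : ∫ y, ee y ^ j ∂ν x =
    2 ^ j * ∫ t, ee t ^ j * (pk (φ ((1 / 2 : ℝ) * ee t)) x : ℂ) ∂mm := by
  have := hν.fin x
  have h1 := NR.mom (ν x) (integrable_const (1 : ℂ)) j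
  simp only [mul_one, integral_complex_ofReal, hν.rep x _ (half_lt _)] at h1
  rw [← h1, ← mul_assoc, ← mul_pow]
  norm_num

lemma Ker.cont_mon (hν : Ker φ ν) (h : IsBdry φ S) (j : ℕ) :
    Continuous fun x => ∫ y, ee y ^ j ∂ν x := by
  simp_rw [hν.mom]
  have := continuous_parametric_integral_of_continuous (μ := mm)
    (f := fun x t => ee t ^ j * (pk (φ ((1 / 2 : ℝ) * ee t)) x : ℂ)) (kern_cont h j) isCompact_univ
  simp only [Measure.restrict_univ] at this
  exact continuous_const.mul this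

lemma Ker.dual_mon (hν : Ker φ ν) (h : IsBdry φ S) (j : ℕ) {g : TT → ℂ} (hg : Continuous g) :
    ∫ y, ee y ^ j * g (S y) ∂mm = ∫ x, (∫ y, ee y ^ j ∂ν x) * g x ∂mm := by
  have h1 := NR.mom mm (integrable_of_memLp (h.isPre.memLp (memLp_cont hg))) j
  simp_rw [h.pushC (half_lt _) hg.aestronglyMeasurable] at h1
  have h2 : Continuous fun p : TT × TT =>
      ee p.2 ^ j * (pk (φ ((1 / 2 : ℝ) * ee p.2)) p.1 : ℂ) * g p.1 :=
    (kern_cont h j).mul (hg.comp continuous_fst)
  have h3 := integral_integral_swap (μ := mm) (ν := mm) (f := fun x t =>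
    ee t ^ j * (pk (φ ((1 / 2 : ℝ) * ee t)) x : ℂ) * g x)
    (h2.integrable_of_hasCompactSupport (HasCompactSupport.of_compactSpace _))
  simp_rw [hν.mom, mul_assoc, ← integral_mul_const]
  rw [integral_const_mul, h3]
  simp_rw [mul_assoc, integral_const_mul]
  rw [← h1, ← mul_assoc, ← mul_pow]
  norm_num

lemma int_cont {E : Type} [NormedAddCommGroup E] {c : TT → E} (hc : Continuous c) (m : Measure TT)
    [IsFiniteMeasure m] : Integrable c m :=
  hc.integrable_of_hasCompactSupport (HasCompactSupport.of_compactSpace _)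

lemma Ker.norm_le (hν : Ker φ ν) (h : IsBdry φ S) (c : C(TT, ℂ)) (x : TT) :
    ‖∫ y, c y ∂ν x‖ ≤ 1 / (1 - ‖φ 0‖) ^ 2 * ‖c‖ := by
  have := hν.fin x
  refine (norm_integral_le_of_norm_le_const (.of_forall c.norm_coe_le_norm)).trans ?_
  rw [hν.mass, mul_comm]
  gcongr
  exact pk_le (h.norm_lt (by simp)) x

lemma Ker.cont (hν : Ker φ ν) (h : IsBdry φ S) (c : C(TT, ℂ)) :
    Continuous fun x => ∫ y, c y ∂ν x := by
  have hf := hν.fin
  let V : Submodule ℂ C(TT, ℂ) :=
    { carrier := {c | Continuous fun x => ∫ y, c y ∂ν x}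
      zero_mem' := by simpa using continuous_const
      add_mem' := fun {a b} ha hb => by
        simp only [Set.mem_setOf_eq, ContinuousMap.add_apply,
          integral_add (int_cont a.continuous _) (int_cont b.continuous _)]
        exact Continuous.add ha hb
      smul_mem' := fun r a ha => by
        simp only [Set.mem_setOf_eq, ContinuousMap.smul_apply, integral_smul]
        exact Continuous.const_smul ha r }
  have hV : IsClosed (V : Set C(TT, ℂ)) := by
    refine IsSeqClosed.isClosed fun a c ha hc => ?_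
    refine TendstoUniformly.continuous (F := fun n x => ∫ y, a n y ∂ν x) (p := atTop) ?_
      (Frequently.of_forall ha)
    refine Metric.tendstoUniformly_iff.2 fun ε hε => ?_
    have h1 := (tendsto_iff_norm_sub_tendsto_zero.1 hc).const_mul (1 / (1 - ‖φ 0‖) ^ 2)
    rw [mul_zero] at h1
    filter_upwards [h1.eventually_lt_const hε] with n hn x
    rw [dist_comm, dist_eq_norm, ← integral_sub (int_cont (a n).continuous _) (int_cont c.continuous _)]
    exact (hν.norm_le h (a n - c) x).trans_lt hn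
  have h2 : (Submodule.span ℂ (Set.range (@fourier tau))).topologicalClosure ≤ V := by
    refine Submodule.topologicalClosure_minimal _ (Submodule.span_le.2 ?_) hV
    rintro _ ⟨j, rfl⟩
    show Continuous fun x => ∫ y, fourier j y ∂ν x
    rcases le_or_gt 0 j with hj | hj
    · obtain ⟨m, rfl⟩ := Int.eq_ofNat_of_zero_le hj
      simpa only [fourier_nat] using hν.cont_mon h m
    · obtain ⟨m, rfl⟩ : ∃ m : ℕ, j = -(m : ℤ) := ⟨(-j).toNat, by omega⟩
      simpa only [fourier_neg, fourier_nat, integral_conj, Function.comp_def] using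
        continuous_conj.comp (hν.cont_mon h m)
  rw [span_fourier_closure_eq_top] at h2
  exact h2 (Submodule.mem_top (x := c))

lemma Ker.dual (hν : Ker φ ν) (h : IsBdry φ S) (c : C(TT, ℂ)) {g : TT → ℂ} (hg : Continuous g) :
    ∫ y, c y * g (S y) ∂mm = ∫ x, (∫ y, c y ∂ν x) * g x ∂mm := by
  have hf := hν.fin
  let T : C(TT, ℂ) →L[ℂ] C(TT, ℂ) := LinearMap.mkContinuous
    { toFun := fun c => ⟨fun x => ∫ y, c y ∂ν x, hν.cont h c⟩
      map_add' := fun a b => by
        ext x
        simp [integral_add (int_cont a.continuous _) (int_cont b.continuous _)]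
      map_smul' := fun r a => by
        ext x
        simp [integral_const_mul] } (1 / (1 - ‖φ 0‖) ^ 2) fun c =>
      (ContinuousMap.norm_le _ (by positivity)).2 (hν.norm_le h c)
  obtain ⟨l1, h1⟩ := exists_clm_pair (integrable_of_memLp (h.isPre.memLp (memLp_cont hg)))
    aemeasurable_id
  obtain ⟨l2, h2⟩ := exists_clm_pair (int_cont hg mm) aemeasurable_id
  have := clm_eq_zero (l1 - l2.comp T) (fun j => by
    rw [sub_apply, ContinuousLinearMap.comp_apply, h1, h2, sub_eq_zero]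
    show ∫ y, fourier j y * g (S y) ∂mm = ∫ x, (∫ y, fourier j y ∂ν x) * g x ∂mm
    rcases le_or_gt 0 j with hj | hj
    · obtain ⟨m, rfl⟩ := Int.eq_ofNat_of_zero_le hj
      simpa only [fourier_nat] using hν.dual_mon h m hg
    · obtain ⟨m, rfl⟩ : ∃ m : ℕ, j = -(m : ℤ) := ⟨(-j).toNat, by omega⟩
      have := congrArg conj (hν.dual_mon h m (continuous_conj.comp hg))
      rw [← integral_conj, ← integral_conj] at this
      simpa only [fourier_neg, fourier_nat, map_mul, Function.comp_apply, conj_conj,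
        integral_conj] using this) c
  rw [sub_apply, ContinuousLinearMap.comp_apply, h1, h2, sub_eq_zero] at this
  exact this

lemma Ker.contR (hν : Ker φ ν) (h : IsBdry φ S) {c : TT → ℝ} (hc : Continuous c) :
    Continuous fun x => ∫ y, c y ∂ν x := by
  have := continuous_re.comp (hν.cont h ⟨fun y => (c y : ℂ), continuous_ofReal.comp hc⟩)
  simpa only [ContinuousMap.coe_mk, integral_complex_ofReal, Function.comp_def, ofReal_re] using this

lemma wd {c : TT → ℝ} (hc : Continuous c) (h0 : ∀ x, 0 ≤ c x) (g : TT → ℝ) :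
    ∫ x, g x ∂(mm.withDensity fun x => ENNReal.ofReal (c x)) = ∫ x, c x * g x ∂mm := by
  rw [integral_withDensity_eq_integral_toReal_smul₀ hc.measurable.aemeasurable.ennreal_ofReal
    (by simp)]
  simp only [ENNReal.toReal_ofReal (h0 _), smul_eq_mul]

lemma Ker.push (hν : Ker φ ν) (h : IsBdry φ S) {c : TT → ℝ} (hc : Continuous c) (h0 : ∀ x, 0 ≤ c x)
    {g : TT → ℝ} (hg : AEStronglyMeasurable g mm) :
    ∫ y, c y * g (S y) ∂mm = ∫ x, (∫ y, c y ∂ν x) * g x ∂mm := by
  have hc' := hν.contR h hc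
  have h0' : ∀ x, 0 ≤ ∫ y, c y ∂ν x := fun x => integral_nonneg h0
  have := isFiniteMeasure_withDensity_ofReal (int_cont hc mm).2
  have := isFiniteMeasure_withDensity_ofReal (int_cont hc' mm).2
  have e : Measure.map S (mm.withDensity fun x => ENNReal.ofReal (c x)) =
      mm.withDensity fun x => ENNReal.ofReal (∫ y, c y ∂ν x) := by
    refine ext_of_forall_integral_eq_of_IsFiniteMeasure fun f => ?_
    rw [integral_map h.meas.aemeasurable f.continuous.aestronglyMeasurable, wd hc h0, wd hc' h0']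
    have h1 := hν.dual h ⟨fun y => (c y : ℂ), continuous_ofReal.comp hc⟩
      (continuous_ofReal.comp f.continuous)
    simp only [ContinuousMap.coe_mk, Function.comp_apply, integral_complex_ofReal,
      ← ofReal_mul] at h1
    exact ofReal_inj.1 h1
  rw [← wd hc h0, ← wd hc' h0', ← e, integral_map h.meas.aemeasurable]
  rw [e]
  exact hg.mono_ac (withDensity_absolutelyContinuous _ _)

end Pool.Agent.Work.MP_f96e05_an.NR
end

-- merged part: Pool.Agent.Work.MP_f96e05_an.NR.Block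
section
/-!
The block form of the numerical radius bound, first on `H²`, then on `L²`.
-/

set_option autoImplicit false

open MeasureTheory Filter Topology Complex Metric
open scoped ComplexConjugate InnerProductSpace

namespace Pool.Agent.Work.MP_f96e05_an.NR

lemma orth (a b : ℕ) : ∫ t, conj (ee t) ^ a * ee t ^ b ∂mm = if a = b then 1 else 0 := by
  have key : ∀ a d : ℕ, ∀ t, conj (ee t) ^ a * ee t ^ (a + d) = ee t ^ d := fun a d t => by
    rw [pow_add, ← mul_assoc, ← mul_pow, mul_comm (conj (ee t)), ee_mul_conj, one_pow, one_mul]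
  rcases lt_trichotomy a b with h | h | h
  · obtain ⟨d, rfl⟩ : ∃ d, b = a + (d + 1) := ⟨b - a - 1, by omega⟩
    simp_rw [key]
    rw [integral_ee_pow, if_neg (by omega)]
  · subst h
    have := key a 0
    simp only [add_zero, pow_zero] at this
    simp [this]
  · obtain ⟨d, rfl⟩ : ∃ d, a = b + (d + 1) := ⟨a - b - 1, by omega⟩
    have h2 : ∀ t, conj (ee t) ^ (b + (d + 1)) * ee t ^ b = conj (ee t ^ (d + 1)) := fun t => by
      rw [← key b (d + 1) t]
      simp [mul_comm]
    simp_rw [h2]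
    rw [integral_conj, integral_ee_pow, if_neg (by omega), map_zero]

lemma int_mon (a b : ℕ) (c : ℂ) : Integrable (fun t => conj (ee t) ^ a * ee t ^ b * c) mm :=
  integrable_of_memLp (memLp_cont (by have := ee_cont; fun_prop))

lemma avg {H : Type} [NormedAddCommGroup H] [InnerProductSpace ℂ H] (n d : ℕ) (x y : ℕ → H) :
    ∫ t, conj (ee t) ^ d * ⟪∑ j ∈ Finset.range n, ee t ^ j • x j,
      ∑ l ∈ Finset.range n, ee t ^ l • y l⟫_ℂ ∂mm =
      ∑ j ∈ Finset.range n, if j + d < n then ⟪x j, y (j + d)⟫_ℂ else 0 := by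
  have e : ∀ t, conj (ee t) ^ d * ⟪∑ j ∈ Finset.range n, ee t ^ j • x j,
      ∑ l ∈ Finset.range n, ee t ^ l • y l⟫_ℂ = ∑ j ∈ Finset.range n, ∑ l ∈ Finset.range n,
        conj (ee t) ^ (j + d) * ee t ^ l * ⟪x j, y l⟫_ℂ := fun t => by
    rw [sum_inner, Finset.mul_sum]
    refine Finset.sum_congr rfl fun j _ => ?_
    rw [inner_sum, Finset.mul_sum]
    refine Finset.sum_congr rfl fun l _ => ?_
    rw [inner_smul_left, inner_smul_right, map_pow]
    ring
  simp_rw [e]
  rw [integral_finset_sum _ fun j _ => integrable_finset_sum _ fun l _ => int_mon _ _ _]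
  refine Finset.sum_congr rfl fun j _ => ?_
  rw [integral_finset_sum _ fun l _ => int_mon _ _ _]
  simp_rw [integral_mul_const, orth]
  simp [Finset.sum_ite_eq]

lemma block_abs {H : Type} [NormedAddCommGroup H] [InnerProductSpace ℂ H] (C : H →L[ℂ] H)
    (V : Submodule ℂ H) {w : ℝ} (hw : ∀ x ∈ V, ‖⟪x, C x⟫_ℂ‖ ≤ w * ‖x‖ ^ 2) (k : ℕ) (x : ℕ → H)
    (hx : ∀ j, x j ∈ V) :
    ‖∑ j ∈ Finset.range k, ⟪x j, C (x (j + 1))⟫_ℂ‖ ≤ w * ∑ j ∈ Finset.range (k + 1), ‖x j‖ ^ 2 := by
  set G : TT → H := fun t => ∑ j ∈ Finset.range (k + 1), ee t ^ j • x j with hG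
  have hGc : Continuous G := by have := ee_cont; fun_prop
  have h1 := avg (k + 1) 1 x fun l => C (x l)
  have h2 := avg (k + 1) 0 x x
  have e1 : ∀ t, ∑ l ∈ Finset.range (k + 1), ee t ^ l • C (x l) = C (G t) := fun t => by
    simp [hG]
  simp_rw [e1] at h1
  rw [Finset.sum_range_succ, if_neg (by omega), add_zero,
    Finset.sum_congr rfl fun j hj => if_pos (by have := Finset.mem_range.1 hj; omega)] at h1
  rw [Finset.sum_congr rfl fun j hj => if_pos (by have := Finset.mem_range.1 hj; omega)] at h2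
  simp only [pow_zero, one_mul, add_zero, inner_self_eq_norm_sq_to_K] at h2
  have h3 : ∫ t, ‖G t‖ ^ 2 ∂mm = ∑ j ∈ Finset.range (k + 1), ‖x j‖ ^ 2 := by
    have : ((∫ t, ‖G t‖ ^ 2 ∂mm : ℝ) : ℂ) = ((∑ j ∈ Finset.range (k + 1), ‖x j‖ ^ 2 : ℝ) : ℂ) := by
      rw [← integral_complex_ofReal]
      push_cast
      exact h2
    exact_mod_cast this
  rw [← h1, ← h3, ← integral_const_mul]
  refine norm_integral_le_of_norm_le ((hGc.norm.pow 2).const_mul w |>.integrable_of_hasCompactSupport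
    (HasCompactSupport.of_compactSpace _)) (.of_forall fun t => ?_)
  rw [norm_mul, pow_one, norm_conj, ee_norm, one_mul]
  exact hw _ (V.sum_mem fun j _ => V.smul_mem _ (hx j))

variable {φ : ℂ → ℂ} {S : TT → TT}

/-- functions moved into `H²` by a power of `u` -/
def Pu (u F : TT → ℂ) : Prop := MemLp F 2 mm ∧ ∃ N : ℕ, IsH fun x => u x ^ N * F x

lemma pu_mono {u F : TT → ℂ} (hu : IsH u) (h1 : ∀ x, ‖u x‖ = 1) {N M : ℕ} (hle : N ≤ M)
    (h : IsH fun x => u x ^ N * F x) : IsH fun x => u x ^ M * F x := by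
  induction M, hle using Nat.le_induction with
  | base => exact h
  | succ M _ ih =>
    simpa only [pow_succ', mul_assoc] using hu.mul (K := 1) (.of_forall fun x => (h1 x).le) ih

lemma pu_lin {u : TT → ℂ} (hu : IsH u) (h1 : ∀ x, ‖u x‖ = 1) : IsLin (Pu u) := by
  refine ⟨?_, ⟨by simp, 0, by simpa using isH_const 0⟩, ?_, ?_, fun h => h.1⟩
  · rintro F G ⟨hF, N, hN⟩ e
    exact ⟨(memLp_congr_ae e).1 hF, N, hN.congr (e.mono fun x hx => by simp only [hx])⟩
  · rintro F G ⟨hF, N, hN⟩ ⟨hG, M, hM⟩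
    refine ⟨hF.add hG, max N M, ?_⟩
    simpa only [mul_add] using (pu_mono hu h1 (le_max_left N M) hN).add
      (pu_mono hu h1 (le_max_right N M) hM)
  · rintro c F ⟨hF, N, hN⟩
    exact ⟨hF.const_mul c, N, by simpa only [mul_left_comm c] using hN.const_mul c⟩

lemma pu_dense {u : TT → ℂ} (hu : IsH u) (h1 : ∀ x, ‖u x‖ = 1)
    (h2 : ∀ z : ℂ, ‖z‖ < 1 → ‖ev u z‖ < 1) (F : LL) : F ∈ closure {G : LL | Pu u G} := by
  have hb : ∀ N : ℕ, Bd fun x => u x ^ N := fun N =>
    ⟨hu.1.1.pow N, 1, .of_forall fun x => by simp [h1]⟩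
  have hp : ∀ N : ℕ, IsH (fun x => u x ^ N) ∧
      ∀ z : ℂ, ‖z‖ < 1 → ev (fun x => u x ^ N) z = ev u z ^ N := fun N => by
    induction N with
    | zero => exact ⟨by simpa using isH_const 1, fun z hz => by simpa using ev_const 1 hz⟩
    | succ N ih =>
      simp only [pow_succ]
      exact ⟨ih.1.mul_bd (hb N) hu, fun z hz => by rw [ev_mul ih.1 (hb N) hu hz, ih.2 z hz]⟩
  have huu : ∀ (N : ℕ) x, u x ^ N * conj (u x) ^ N = 1 := fun N x => by
    rw [← mul_pow, mul_conj, normSq_eq_norm_sq, h1]; simp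
  have := (pu_lin hu h1).approx (Lp.memLp F) fun y hy ho => by
    have hK : ∀ N : ℕ, IsH fun x => conj (u x) ^ N * conj (y x) := fun N => by
      have hb' : Bd fun x => conj (u x) ^ N := by simpa only [map_pow] using (hb N).conj
      refine ⟨hb'.mul_memLp (memLp_conj hy), fun j => ?_⟩
      have h3 := ho (fun x => conj (u x) ^ N * ee x ^ (j + 1))
        ⟨hb'.mul_memLp (memLp_ee_pow _), N, by
          simpa only [← mul_assoc, huu, one_mul] using isH_ee_pow (j + 1)⟩
      have h4 := congrArg conj h3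
      rw [← integral_conj, map_zero] at h4
      rw [← h4]
      refine integral_congr_ae (.of_forall fun x => ?_)
      simp only [map_mul, map_pow, conj_conj]
      ring
    have h0 : IsH fun x => conj (y x) := by simpa using hK 0
    have hz := h0.zero_of_ev fun z hz => by
      have h5 : ∀ N : ℕ, ‖ev (fun x => conj (y x)) z‖ ≤
          ‖ev u z‖ ^ N * ∫ x, pk z x * ‖y x‖ ∂mm := fun N => by
        have h6 := ev_mul (hp N).1 (hb N) (hK N) hz
        simp only [← mul_assoc, huu, one_mul] at h6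
        rw [h6, (hp N).2 z hz, norm_mul, norm_pow]
        gcongr
        simpa [h1] using norm_ev_le (hK N) hz
      have h7 := (tendsto_pow_atTop_nhds_zero_of_lt_one (norm_nonneg _) (h2 z hz)).mul_const
        (∫ x, pk z x * ‖y x‖ ∂mm)
      rw [zero_mul] at h7
      exact norm_le_zero_iff.1 (ge_of_tendsto' h7 h5)
    rw [integral_congr_ae (g := fun _ => 0) (hz.mono fun x hx => by simp only [hx, zero_mul])]
    simp
  rwa [Lp.toLp_coeFn] at this

/-- the block bound on `L²` -/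
lemma block_L2 (h : IsBdry φ S) (k : ℕ) (F : ℕ → TT → ℂ) (hF : ∀ j, MemLp (F j) 2 mm) :
    ‖∑ j ∈ Finset.range k, qq S (F (j + 1)) (F j)‖ ≤
      sSup (norm '' WW S) * ∑ j ∈ Finset.range (k + 1), nn (F j) := by
  set w := sSup (norm '' WW S)
  obtain ⟨C, hC⟩ := h.isPre.exists_clm
  set u : ℕ → TT → ℂ := fun i x => ee (S^[i] x) with hu
  have he : IsH ee := by simpa using isH_ee_pow 1
  have huH : ∀ i, IsH (u i) := fun i => (h.iter he i).1
  have hu1 : ∀ i x, ‖u i x‖ = 1 := fun i x => ee_norm _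
  have hu2 : ∀ i z, ‖z‖ < 1 → ‖ev (u i) z‖ < 1 := fun i z hz => by
    have h3 := h.iter_lt hz i
    rw [(h.iter he i).2 z hz, dc_ev (g := fun z => z) (Differentiable.diffContOnCl (by fun_prop)) h3]
    exact h3
  have hcl : IsClosed {x : ℕ → LL | ‖∑ j ∈ Finset.range k, ⟪x (j + 1), C (x j)⟫_ℂ‖ ≤
      w * ∑ j ∈ Finset.range (k + 1), ‖x j‖ ^ 2} := isClosed_le (by fun_prop) (by fun_prop)
  have hsub : (Set.univ.pi fun i => {G : LL | Pu (u i) G}) ⊆ {x : ℕ → LL |
      ‖∑ j ∈ Finset.range k, ⟪x (j + 1), C (x j)⟫_ℂ‖ ≤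
      w * ∑ j ∈ Finset.range (k + 1), ‖x j‖ ^ 2} := fun x hx => by
    choose N hN using fun i => (hx i trivial).2
    set M := ∑ i ∈ Finset.range (k + 1), N i
    have hM : ∀ i, IsH fun t => u (k - i) t ^ M * x (k - i) t := fun i =>
      pu_mono (huH _) (hu1 _) (Finset.single_le_sum (f := N) (fun _ _ => Nat.zero_le _)
        (Finset.mem_range.2 (by omega))) (hN _)
    have h4 := block_abs C isLin_H.sub (w := w) (fun y hy => by
      rw [inner_clm hC, normsq_LL]; exact norm_qq_le h.isPre hy) k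
      (fun i => (hM i).1.toLp _) fun i => isLin_H.toLp_mem (hM i)
    rw [← Finset.sum_range_reflect, ← Finset.sum_range_reflect (fun j => ‖(hM j).1.toLp _‖ ^ 2)]
      at h4
    rw [Set.mem_setOf_eq]
    convert h4 using 2
    · refine Finset.sum_congr rfl fun j hj => ?_
      have hj' := Finset.mem_range.1 hj
      rw [inner_clm hC, inner_clm hC, h.isPre.qq_congr (hM _).1.coeFn_toLp (hM _).1.coeFn_toLp,
        show k - (k - 1 - j) = j + 1 by omega, show k - (k - 1 - j + 1) = j by omega]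
      refine integral_congr_ae (.of_forall fun t => ?_)
      have h5 : u j (S t) = u (j + 1) t := rfl
      have h6 : conj (u (j + 1) t) ^ M * u (j + 1) t ^ M = 1 := by
        rw [← mul_pow, mul_comm, ee_mul_conj, one_pow]
      simp only [h5, map_mul, map_pow]
      linear_combination (-(conj (x (j + 1) t) * x j (S t))) * h6
    · refine Finset.sum_congr rfl fun j hj => ?_
      have hj' := Finset.mem_range.1 hj
      rw [normsq_LL, normsq_LL]
      refine integral_congr_ae ?_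
      filter_upwards [(hM (k + 1 - 1 - j)).1.coeFn_toLp] with t ht
      rw [ht, show k - (k + 1 - 1 - j) = j by omega, norm_mul, norm_pow, hu1, one_pow, one_mul]
  have h8 : (fun j => (hF j).toLp _) ∈ closure (Set.univ.pi fun i => {G : LL | Pu (u i) G}) := by
    rw [closure_pi_set]
    exact fun i _ => pu_dense (huH i) (hu1 i) (hu2 i) _
  have h7 := hcl.closure_subset_iff.2 hsub h8
  simp only [Set.mem_setOf_eq, inner_clm hC, normsq_LL] at h7
  convert h7 using 2
  · exact Finset.sum_congr rfl fun j _ =>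
      (h.isPre.qq_congr (hF _).coeFn_toLp (hF _).coeFn_toLp).symm
  · exact Finset.sum_congr rfl fun j _ => (nn_congr (hF j).coeFn_toLp).symm

end Pool.Agent.Work.MP_f96e05_an.NR
end

-- merged part: Pool.Agent.Work.MP_f96e05_an.NR.Rec
section
/-!
The two halves of the continued fraction criterion.
-/

set_option autoImplicit false

open MeasureTheory Filter Topology Complex Metric
open scoped ComplexConjugate InnerProductSpace

namespace Pool.Agent.Work.MP_f96e05_an.NR

variable {φ : ℂ → ℂ} {S : TT → TT} {ν : TT → Measure TT} {E : ℝ}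

lemma cos_le {e : ℝ} {ρ : ℕ → ℝ} {k : ℕ} (h0 : ρ 0 ≤ e) (hp : ∀ j < k, 0 < ρ j) (hk : 0 ≤ ρ k)
    (hs : ∀ j < k, ρ (j + 1) ≤ e - 1 / ρ j) : 2 * Real.cos (Real.pi / (k + 2)) ≤ e := by
  by_contra hlt
  push Not at hlt
  set θ := Real.pi / (k + 2) with hθ
  have hθ0 : 0 < θ := by have := Real.pi_pos; positivity
  have hθ1 : ((k : ℝ) + 2) * θ = Real.pi := by rw [hθ]; field_simp
  have hsin : ∀ j ≤ k, 0 < Real.sin (((j : ℝ) + 1) * θ) := fun j hj =>
    Real.sin_pos_of_pos_of_lt_pi (by positivity) (by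
      have : (j : ℝ) ≤ k := by exact_mod_cast hj
      nlinarith)
  have key : ∀ j ≤ k, ρ j * Real.sin (((j : ℝ) + 1) * θ) < Real.sin (((j : ℝ) + 2) * θ) := by
    intro j hj
    induction j with
    | zero =>
      have := hsin 0 hj
      simp only [Nat.cast_zero, zero_add, one_mul] at this ⊢
      rw [Real.sin_two_mul]
      nlinarith
    | succ j ih =>
      have h1 := ih (by omega)
      have h2 := hsin (j + 1) hj
      have h3 := hp j (by omega)
      have h4 := hs j (by omega)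
      have h5 : Real.sin (((j : ℝ) + 1 + 2) * θ) =
          2 * Real.cos θ * Real.sin (((j : ℝ) + 2) * θ) - Real.sin (((j : ℝ) + 1) * θ) := by
        rw [show ((j : ℝ) + 1 + 2) * θ = ((j : ℝ) + 2) * θ + θ by ring,
          show ((j : ℝ) + 1) * θ = ((j : ℝ) + 2) * θ - θ by ring, Real.sin_add, Real.sin_sub]
        ring
      push_cast at h2 ⊢
      rw [show (j : ℝ) + 1 + 1 = j + 2 by ring] at h2 ⊢
      have h6 : Real.sin (((j : ℝ) + 1) * θ) < 1 / ρ j * Real.sin (((j : ℝ) + 2) * θ) := by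
        rw [one_div, inv_mul_eq_div, lt_div_iff₀ h3]
        linarith
      rw [h5]
      nlinarith
  have h7 := key k le_rfl
  rw [hθ1, Real.sin_pi] at h7
  nlinarith [hsin k le_rfl]

/-- the approximants on the parametrised circle -/
noncomputable def rk (ν : TT → Measure TT) (E : ℝ) : ℕ → TT → ℝ
  | 0 => fun _ => E
  | k + 1 => fun x => E - ∫ y, (rk ν E k y)⁻¹ ∂ν x

lemma rk_cont (hν : Ker φ ν) (h : IsBdry φ S) {k : ℕ} (hp : ∀ j < k, ∀ x, 0 < rk ν E j x) :
    Continuous (rk ν E k) := by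
  induction k with
  | zero => exact continuous_const
  | succ k ih =>
    exact continuous_const.sub (hν.contR h ((ih fun j hj => hp j (by omega)).inv₀
      fun x => (hp k (by omega) x).ne'))

lemma int_sq {c : TT → ℝ} (hc : Continuous c) {F : TT → ℂ} (hF : MemLp F 2 mm) :
    Integrable (fun x => c x * ‖F x‖ ^ 2) mm := by
  obtain ⟨K, hK⟩ := (isCompact_range hc.norm).bddAbove
  exact (integrable_normsq hF).bdd_mul hc.aestronglyMeasurable (.of_forall fun x => hK ⟨x, rfl⟩)

lemma rk_push (hν : Ker φ ν) (h : IsBdry φ S) {k : ℕ} (hp : ∀ j ≤ k, ∀ x, 0 < rk ν E j x)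
    {F : TT → ℂ} (hF : MemLp F 2 mm) : ∫ x, (rk ν E k x)⁻¹ * ‖F (S x)‖ ^ 2 ∂mm =
      E * nn F - ∫ x, rk ν E (k + 1) x * ‖F x‖ ^ 2 ∂mm := by
  have h1 := rk_cont hν h (k := k) fun j hj => hp j hj.le
  have h2 := rk_cont hν h (k := k + 1) fun j hj => hp j (by omega)
  rw [hν.push h (c := fun x => (rk ν E k x)⁻¹) (h1.inv₀ fun x => (hp k le_rfl x).ne') (fun x => (inv_pos.2 (hp k le_rfl x)).le)
    (g := fun x => ‖F x‖ ^ 2) (integrable_normsq hF).1, nn, ← integral_const_mul,
    ← integral_sub ((integrable_normsq hF).const_mul E) (int_sq h2 hF)]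
  refine integral_congr_ae (.of_forall fun x => ?_)
  simp only [rk]
  ring

lemma upper (hν : Ker φ ν) (h : IsBdry φ S) {k : ℕ} (hp : ∀ j ≤ k, ∀ x, 0 < rk ν E j x)
    {F : TT → ℂ} (hF : MemLp F 2 mm) :
    2 * Real.cos (Real.pi / (k + 2)) * ‖qq S F F‖ ≤ E * nn F := by
  have hE : 0 < E := hp 0 (Nat.zero_le _) 0
  have hFS := h.isPre.memLp hF
  have hi : Integrable (fun x => ‖F x‖ * ‖F (S x)‖) mm := by
    simpa only [norm_mul] using (integrable_mul2 hF hFS).norm
  set a := ∫ x, ‖F x‖ * ‖F (S x)‖ ∂mm with ha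
  have ha1 : ‖qq S F F‖ ≤ a := norm_integral_le_of_norm_le hi (.of_forall fun x => by simp)
  have hc : 0 ≤ Real.cos (Real.pi / (k + 2)) := by
    have := Real.pi_pos
    refine Real.cos_nonneg_of_neg_pi_div_two_le_of_le (le_trans (b := 0) (by linarith) (by positivity)) ?_
    gcongr
    linarith [Nat.cast_nonneg (α := ℝ) k]
  rcases (le_trans (norm_nonneg _) ha1).eq_or_lt with h0 | h0
  · have := nn_nonneg F
    rw [le_antisymm (ha1.trans h0.ge) (norm_nonneg _), mul_zero]
    positivity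
  set R : ℕ → ℝ := fun j => ∫ x, rk ν E j x * ‖F x‖ ^ 2 ∂mm with hR
  have hR0 : ∀ j ≤ k, 0 ≤ R j := fun j hj =>
    integral_nonneg fun x => mul_nonneg (hp j hj x).le (sq_nonneg _)
  have cs : ∀ j < k, a ^ 2 ≤ R j * (E * nn F - R (j + 1)) := fun j hj => by
    have hp' : ∀ i ≤ j, ∀ x, 0 < rk ν E i x := fun i hi => hp i (by omega)
    have h1 := rk_cont hν h (k := j) fun i hi => hp' i hi.le
    have h2 : Continuous fun x => (rk ν E j x)⁻¹ := h1.inv₀ fun x => (hp' j le_rfl x).ne'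
    have h3 := discrim_le_zero (a := E * nn F - R (j + 1)) (b := -(2 * a)) (c := R j) fun s => by
      have h4 : ∫ x, 2 * s * (‖F x‖ * ‖F (S x)‖) ∂mm ≤
          ∫ x, rk ν E j x * ‖F x‖ ^ 2 + s ^ 2 * ((rk ν E j x)⁻¹ * ‖F (S x)‖ ^ 2) ∂mm := by
        refine integral_mono (hi.const_mul _) ((int_sq h1 hF).add ((int_sq h2 hFS).const_mul _))
          fun x => ?_
        have h5 := hp' j le_rfl x
        have h6 : rk ν E j x * ‖F x‖ ^ 2 + s ^ 2 * ((rk ν E j x)⁻¹ * ‖F (S x)‖ ^ 2) -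
            2 * s * (‖F x‖ * ‖F (S x)‖) =
            (rk ν E j x * ‖F x‖ - s * ‖F (S x)‖) ^ 2 / rk ν E j x := by field_simp; ring
        have h7 : 0 ≤ (rk ν E j x * ‖F x‖ - s * ‖F (S x)‖) ^ 2 / rk ν E j x := by positivity
        show _ ≤ _
        linarith
      rw [integral_add (int_sq h1 hF) ((int_sq h2 hFS).const_mul _), integral_const_mul,
        integral_const_mul, rk_push hν h hp' hF] at h4
      nlinarith
    unfold discrim at h3
    nlinarith
  have hRp : ∀ j < k, 0 < R j := fun j hj => (hR0 j hj.le).lt_of_ne fun e => by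
    have := cs j hj
    rw [← e] at this
    nlinarith
  have key := cos_le (e := E * nn F / a) (ρ := fun j => R j / a) (k := k) (by
      simp only [hR, rk, integral_const_mul, nn, le_refl])
    (fun j hj => div_pos (hRp j hj) h0) (div_nonneg (hR0 k le_rfl) h0.le) fun j hj => by
      have h1 := cs j hj
      have h2 := hRp j hj
      rw [one_div_div, le_sub_iff_add_le, ← le_sub_iff_add_le', ← sub_div, div_le_div_iff₀ h2 h0]
      nlinarith
  rw [le_div_iff₀ h0] at key
  nlinarith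

lemma w_nonneg (h : IsBdry φ S) : 1 ≤ sSup (norm '' WW S) :=
  le_csSup (WW_bdd h.isPre) ⟨1, one_mem_WW, norm_one⟩

lemma rk_le {k : ℕ} (hp : ∀ j < k, ∀ x, 0 < rk ν E j x) (x : TT) : rk ν E k x ≤ E := by
  cases k with
  | zero => exact le_rfl
  | succ k => exact sub_le_self _ (integral_nonneg fun y => (inv_pos.2 (hp k (by omega) y)).le)

lemma pk_ge {a : ℂ} (ha : ‖a‖ < 1) (x : TT) : (1 - ‖a‖ ^ 2) / 4 ≤ pk a x := by
  have h1 : ‖ee x - a‖ ≤ 2 := by linarith [norm_sub_le (ee x) a, ee_norm x]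
  have h2 := norm_pos_iff.2 (ee_sub_ne ha x)
  refine div_le_div_of_nonneg_left (by nlinarith [norm_nonneg a]) (by positivity) (by nlinarith)

lemma lower_step (hν : Ker φ ν) (h : IsBdry φ S) (hE : 2 * sSup (norm '' WW S) ≤ E) {k : ℕ}
    (hp : ∀ j ≤ k, ∀ x, 0 < rk ν E j x) (x : TT) : 0 < rk ν E (k + 1) x := by
  set w := sSup (norm '' WW S)
  have hE0 : 0 < E := hp 0 (Nat.zero_le _) 0
  have ha : ‖φ 0‖ < 1 := h.norm_lt (by simp)
  set q : ℝ := (1 - ‖φ 0‖ ^ 2) / 4 / E ^ 2 with hq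
  have hq0 : 0 < q := by
    have : 0 < 1 - ‖φ 0‖ ^ 2 := by nlinarith [norm_nonneg (φ 0)]
    positivity
  set δ : ℝ := E * q ^ (k + 2) with hδ
  have hδ0 : 0 < δ := by positivity
  have hc : ∀ j ≤ k + 1, Continuous (rk ν E j) := fun j hj =>
    rk_cont hν h fun i hi => hp i (by omega)
  set f : TT → ℝ := fun x => max (δ - rk ν E (k + 1) x) 0 with hf
  have hfc : Continuous f := by have := hc (k + 1) le_rfl; fun_prop
  let G : ℕ → TT → ℂ := fun i => Nat.rec (fun x => (f x : ℂ))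
    (fun i g x => ((rk ν E (k - i) x)⁻¹ : ℝ) * g (S x)) i
  have hG0 : G 0 = fun x => (f x : ℂ) := rfl
  have hG1 : ∀ i, G (i + 1) = fun x => ((rk ν E (k - i) x)⁻¹ : ℝ) * G i (S x) := fun i => rfl
  have hG : ∀ i, MemLp (G i) 2 mm := fun i => by
    induction i with
    | zero => exact memLp_cont (continuous_ofReal.comp hfc)
    | succ i ih =>
      exact (T1_bd_cont (continuous_ofReal.comp ((hc (k - i) (by omega)).inv₀
        fun x => (hp _ (by omega) x).ne'))).mul_memLp (h.isPre.memLp ih)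
  have hlow : ∀ i, q * nn (G i) ≤ nn (G (i + 1)) := fun i => by
    have h1 : (1 - ‖φ 0‖ ^ 2) / 4 * nn (G i) ≤ ∫ x, ‖G i (S x)‖ ^ 2 ∂mm := by
      rw [h.integral_comp_real (g := fun x => ‖G i x‖ ^ 2) (integrable_normsq (hG i)).1, nn,
        ← integral_const_mul]
      exact integral_mono ((integrable_normsq (hG i)).const_mul _) (int_sq (pk_cont ha) (hG i))
        fun x => mul_le_mul_of_nonneg_right (pk_ge ha x) (sq_nonneg _)
    have h2 : ∫ x, (E ^ 2)⁻¹ * ‖G i (S x)‖ ^ 2 ∂mm ≤ nn (G (i + 1)) := by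
      refine integral_mono ((integrable_normsq (h.isPre.memLp (hG i))).const_mul _)
        (integrable_normsq (hG (i + 1))) fun x => ?_
      have h3 := hp (k - i) (by omega) x
      have h4 := rk_le (ν := ν) (E := E) (k := k - i) (fun j hj => hp j (by omega)) x
      simp only [hG1, norm_mul, norm_real, Real.norm_eq_abs, mul_pow, sq_abs, inv_pow]
      gcongr
    rw [integral_const_mul] at h2
    refine le_trans ?_ h2
    rw [hq, div_eq_inv_mul _ (E ^ 2), mul_assoc]
    gcongr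
  have hlow' : ∀ i, q ^ i * nn (G 0) ≤ nn (G i) := fun i => by
    induction i with
    | zero => simp
    | succ i ih =>
      refine le_trans ?_ (hlow i)
      rw [pow_succ', mul_assoc]
      gcongr
  set T : ℕ → ℝ := fun i => ∫ x, rk ν E (k + 1 - i) x * ‖G i x‖ ^ 2 ∂mm with hT
  have e1 : ∀ i, qq S (G (i + 1)) (G i) =
      ((∫ x, rk ν E (k - i) x * ‖G (i + 1) x‖ ^ 2 ∂mm : ℝ) : ℂ) := fun i => by
    rw [← integral_complex_ofReal]
    refine integral_congr_ae (.of_forall fun x => ?_)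
    have h2 : ((rk ν E (k - i) x : ℝ) : ℂ) ≠ 0 := by exact_mod_cast (hp (k - i) (by omega) x).ne'
    simp only [ofReal_mul, ofReal_pow, ← conj_mul', hG1, ofReal_inv]
    field_simp
  have e2 : ∀ i ≤ k, T (i + 1) = E * nn (G i) - T i := fun i hi => by
    have h1 := rk_push hν h (k := k - i) (fun j hj => hp j (by omega)) (hG i)
    rw [show k - i + 1 = k + 1 - i by omega] at h1
    rw [← h1]
    refine integral_congr_ae (.of_forall fun x => ?_)
    have h2 := hp (k - i) (by omega) x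
    simp only [hG1, show k + 1 - (i + 1) = k - i by omega, norm_mul, norm_real, Real.norm_eq_abs,
      mul_pow, sq_abs]
    field_simp
  have e3 : ∀ i, k + 1 ≤ i → T i = E * nn (G i) := fun i hi => by
    simp only [hT, Nat.sub_eq_zero_of_le hi, rk, integral_const_mul, nn]
  have e4 : ∀ n ≤ k + 1, 2 * ∑ i ∈ Finset.range n, T (i + 1) =
      E * ∑ i ∈ Finset.range n, nn (G i) - T 0 + T n := fun n hn => by
    induction n with
    | zero => simp
    | succ n ih =>
      rw [Finset.sum_range_succ, Finset.sum_range_succ, mul_add, ih (by omega), e2 n (by omega)]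
      ring
  have h5 := block_L2 h (k + 2) G hG
  have e5 : ∀ i, qq S (G (i + 1)) (G i) = (T (i + 1) : ℝ) := fun i => by
    rw [e1, hT]
    simp only [Nat.add_sub_add_right]
  simp_rw [e5] at h5
  rw [← ofReal_sum, norm_real] at h5
  have h6 := (le_abs_self _).trans h5
  have h7 := e4 (k + 1) le_rfl
  have h8 : 0 ≤ ∑ i ∈ Finset.range (k + 2 + 1), nn (G i) :=
    Finset.sum_nonneg fun i _ => nn_nonneg _
  have h9 : δ * nn (G 0) ≤ T 0 := by
    have h10 : 2 * w * ∑ i ∈ Finset.range (k + 2 + 1), nn (G i) ≤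
        E * ∑ i ∈ Finset.range (k + 2 + 1), nn (G i) := by gcongr
    have h11 := mul_le_mul_of_nonneg_left (hlow' (k + 2)) hE0.le
    rw [Finset.sum_range_succ (fun i => T (i + 1)) (k + 1), e3 (k + 1 + 1) (by omega)] at h6
    rw [e3 (k + 1) le_rfl] at h7
    rw [Finset.sum_range_succ (fun i => nn (G i)) (k + 2),
      Finset.sum_range_succ (fun i => nn (G i)) (k + 1)] at h6 h10
    rw [hδ, mul_assoc]
    change _ ≤ E * nn (G (k + 1 + 1)) at h11
    change 2 * w * (_ + nn (G (k + 1 + 1))) ≤ E * (_ + nn (G (k + 1 + 1))) at h10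
    change _ ≤ w * (_ + nn (G (k + 1 + 1))) at h6
    linarith
  have h10 : ∫ x, f x ^ 3 ∂mm = δ * nn (G 0) - T 0 := by
    rw [nn, ← integral_const_mul, hT, ← integral_sub ((integrable_normsq (hG 0)).const_mul _)
      (int_sq (hc _ (by omega)) (hG 0))]
    refine integral_congr_ae (.of_forall fun x => ?_)
    simp only [hG0, norm_real, Real.norm_eq_abs, sq_abs, Nat.sub_zero, hf]
    rcases le_total (δ - rk ν E (k + 1) x) 0 with h1 | h1
    · rw [max_eq_right h1]; ring
    · rw [max_eq_left h1]; ring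
  have h11 : ∀ x, 0 ≤ f x ^ 3 := fun x => pow_nonneg (le_max_right _ _) _
  have h12 := (integral_eq_zero_iff_of_nonneg h11 (int_cont (hfc.pow 3) mm)).1
    (le_antisymm (by linarith) (integral_nonneg h11))
  have h13 := congrFun (((hfc.pow 3).ae_eq_iff_eq mm continuous_zero).1 h12) x
  have h14 : f x = 0 := pow_eq_zero_iff (by norm_num) |>.1 h13
  linarith [le_max_left (δ - rk ν E (k + 1) x) 0]

lemma lower (hν : Ker φ ν) (h : IsBdry φ S) (hE : 2 * sSup (norm '' WW S) ≤ E) (k : ℕ) :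
    ∀ j ≤ k, ∀ x, 0 < rk ν E j x := by
  induction k with
  | zero =>
    intro j hj x
    obtain rfl : j = 0 := by omega
    have := w_nonneg h
    show 0 < E
    linarith
  | succ k ih =>
    intro j hj x
    rcases Nat.lt_or_ge j (k + 1) with h1 | h1
    · exact ih j (by omega) x
    · obtain rfl : j = k + 1 := by omega
      exact lower_step hν h hE ih x

end Pool.Agent.Work.MP_f96e05_an.NR
end

-- merged part: Pool.Agent.Work.MP_f96e05_an.NR.Main
section
/-!
Existence of the Clark measures and the formula for the numerical radius.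
-/

set_option autoImplicit false

open MeasureTheory Filter Topology Complex Metric
open scoped ComplexConjugate InnerProductSpace

namespace Pool.Agent.Work.MP_f96e05_an.NR

variable {φ : ℂ → ℂ} {S : TT → TT} {μ : ℂ → Measure ℂ} {E : ℝ}

/-- the angle of a point of the circle -/
noncomputable def lift (ξ : ℂ) : TT := ((arg ξ : ℝ) : TT)

lemma lift_meas : Measurable lift :=
  (AddCircle.continuous_mk' tau).measurable.comp measurable_arg

lemma ee_lift {ξ : ℂ} (h : ‖ξ‖ = 1) : ee (lift ξ) = ξ := by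
  have := norm_mul_exp_arg_mul_I ξ
  rwa [h, ofReal_one, one_mul, ← ee_coe] at this

lemma pois_re {a ζ : ℂ} (hζ : ‖ζ‖ = 1) : pois a ζ = ((ζ + a) / (ζ - a)).re := by
  have h1 : ζ.re * ζ.re + ζ.im * ζ.im = 1 := by
    rw [← normSq_apply, normSq_eq_norm_sq, hζ, one_pow]
  rw [pois, div_re, ← add_div, ← normSq_eq_norm_sq, ← normSq_eq_norm_sq]
  congr 1
  simp only [normSq_apply, add_re, sub_re, add_im, sub_im]
  linarith

lemma rep_dil (hd : DifferentiableOn ℂ φ (ball 0 1)) (hm : Set.MapsTo φ (ball 0 1) (ball 0 1))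
    {ζ z : ℂ} (hζ : ‖ζ‖ = 1) (hz : ‖z‖ < 1) {r : ℝ} (hr : |r| < 1) :
    Continuous (fun t => pois (φ (r * ee t)) ζ) ∧
      ∫ t, pois (φ (r * ee t)) ζ * pk z t ∂mm = pois (φ (r * z)) ζ := by
  have h1 := dilate_dc hd hr
  have h2 : ∀ u ∈ closure (ball (0 : ℂ) 1), ζ - φ (r * u) ≠ 0 := fun u hu e => by
    rw [closure_ball _ one_ne_zero, mem_closedBall_zero_iff] at hu
    have h3 : ‖φ (r * u)‖ < 1 := mem_ball_zero_iff.1 (hm (mem_ball_zero_iff.2 (by
      rw [norm_mul, norm_real, Real.norm_eq_abs]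
      nlinarith [abs_nonneg r, norm_nonneg u])))
    rw [← sub_eq_zero.1 e, hζ] at h3
    exact lt_irrefl _ h3
  have h4 : DiffContOnCl ℂ (fun u => (ζ + φ (r * u)) / (ζ - φ (r * u))) (ball 0 1) :=
    ⟨((differentiableOn_const _).add h1.1).div ((differentiableOn_const _).sub h1.1)
      fun u hu => h2 u (subset_closure hu),
    (continuousOn_const.add h1.2).div (continuousOn_const.sub h1.2) h2⟩
  simp_rw [pois_re hζ]
  refine ⟨continuous_re.comp (dc_cont h4), ?_⟩
  have h5 := (integral_pk_mul (dc_isH h4) hz).trans (dc_ev h4 hz)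
  have h6 : Continuous fun x => (pk z x : ℂ) * ((ζ + φ (r * ee x)) / (ζ - φ (r * ee x))) :=
    (continuous_ofReal.comp (pk_cont hz)).mul (dc_cont h4)
  rw [← h5, ← RCLike.re_to_complex, ← integral_re (int_cont h6 mm)]
  refine integral_congr_ae (.of_forall fun t => ?_)
  simp [mul_comm]

lemma pois_nonneg {a : ℂ} (ha : ‖a‖ < 1) (ζ : ℂ) : 0 ≤ pois a ζ :=
  div_nonneg (by nlinarith [norm_nonneg a]) (sq_nonneg _)

lemma exists_one (hd : DifferentiableOn ℂ φ (ball 0 1)) (hm : Set.MapsTo φ (ball 0 1) (ball 0 1))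
    {ζ : ℂ} (hζ : ‖ζ‖ = 1) : ∃ m : FiniteMeasure TT, ∀ z : ℂ, ‖z‖ < 1 →
      ∫ y, pk z y ∂(m : Measure TT) = pois (φ z) ζ := by
  have h0 : ‖(0 : ℂ)‖ < 1 := by simp
  have hc : ∀ n, Continuous fun t => pois (φ (rr n * ee t)) ζ := fun n =>
    (rep_dil hd hm hζ h0 (rr_abs n)).1
  have hn : ∀ n t, 0 ≤ pois (φ (rr n * ee t)) ζ := fun n t =>
    pois_nonneg (mem_ball_zero_iff.1 (hm (rr_mem n t))) _
  let m : ℕ → FiniteMeasure TT := fun n =>
    ⟨mm.withDensity fun t => ENNReal.ofReal (pois (φ (rr n * ee t)) ζ),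
      isFiniteMeasure_withDensity_ofReal (int_cont (hc n) mm).2⟩
  have hm1 : ∀ n (z : ℂ), ‖z‖ < 1 → ∫ y, pk z y ∂(m n : Measure TT) = pois (φ (rr n * z)) ζ :=
    fun n z hz => (wd (hc n) (hn n) _).trans (rep_dil hd hm hζ hz (rr_abs n)).2
  have hm2 : ∀ n, m n ∈ {ν : FiniteMeasure TT | ν.mass ≤ (pois (φ 0) ζ).toNNReal} := fun n => by
    have := hm1 n 0 h0
    simp only [pk_zero, integral_const, smul_eq_mul, mul_one, mul_zero] at this
    rw [Set.mem_setOf_eq, ← this, ← NNReal.coe_le_coe, Real.coe_toNNReal _ measureReal_nonneg]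
    exact le_of_eq rfl
  obtain ⟨ν, -, hν⟩ := (isCompact_setOfPred_finiteMeasure_le_of_compactSpace TT _).exists_mapClusterPt
    (f := atTop) (u := m) (le_principal_iff.2 (mem_map.2 (Eventually.of_forall hm2)))
  refine ⟨ν, fun z hz => ?_⟩
  have h1 := (FiniteMeasure.continuous_integral_boundedContinuousFunction
    (BoundedContinuousFunction.mkOfCompact ⟨pk z, pk_cont hz⟩)).continuousAt.tendsto
      |> fun h => hν.tendsto_comp h
  have h2 : Tendsto (fun n => pois (φ (rr n * z)) ζ) atTop (𝓝 (pois (φ z) ζ)) := by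
    have h3 : ζ - φ z ≠ 0 := fun e => by
      have := mem_ball_zero_iff.1 (hm (mem_ball_zero_iff.2 hz))
      rw [← sub_eq_zero.1 e, hζ] at this
      exact lt_irrefl _ this
    have h4 : ContinuousAt (fun a => pois a ζ) (φ z) :=
      ContinuousAt.div (by fun_prop) (by fun_prop) (pow_ne_zero _ (norm_ne_zero_iff.2 h3))
    exact h4.tendsto.comp (tendsto_dilate hd hz)
  refine eq_of_nhds_neBot (h1.clusterPt.mono ?_)
  refine h2.congr fun n => (hm1 n z hz).symm

lemma exists_clark (hd : DifferentiableOn ℂ φ (ball 0 1))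
    (hm : Set.MapsTo φ (ball 0 1) (ball 0 1)) : ∃ μ, IsClark φ μ := by
  choose! m hm' using fun ζ (hζ : ‖ζ‖ = 1) => exists_one hd hm hζ
  refine ⟨fun ζ => (m ζ : Measure TT).map ee, fun ζ hζ => ⟨inferInstance, ?_, fun z hz => ?_⟩⟩
  · exact (ae_map_iff ee_cont.aemeasurable (measurableSet_eq_fun measurable_norm
      measurable_const)).2 (.of_forall ee_norm)
  · rw [integral_map ee_cont.aemeasurable
      (Measurable.aestronglyMeasurable (by unfold pois; fun_prop))]
    exact hm' ζ hζ z hz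

lemma IsClark.int (hμ : IsClark φ μ) (x : TT) {c : TT → ℝ} (hc : Continuous c) {g : ℂ → ℝ}
    (e : ∀ y, g (ee y) = c y) : ∫ y, c y ∂(μ (ee x)).map lift = ∫ ξ, g ξ ∂μ (ee x) := by
  rw [integral_map lift_meas.aemeasurable hc.aestronglyMeasurable]
  refine integral_congr_ae ((hμ _ (ee_norm x)).2.1.mono fun ξ hξ => ?_)
  simp only [← e, ee_lift hξ]

lemma IsClark.ker (hμ : IsClark φ μ) : Ker φ fun x => (μ (ee x)).map lift :=
  ⟨fun x => by have := (hμ _ (ee_norm x)).1; infer_instance, fun x z hz =>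
    (hμ.int x (pk_cont hz) (g := pois z) fun _ => rfl).trans ((hμ _ (ee_norm x)).2.2 z hz)⟩

lemma frac_succ (k : ℕ) (ζ : ℂ) : frac μ E (k + 1) ζ = E - ∫ ξ, (frac μ E k ξ)⁻¹ ∂μ ζ := by
  rw [frac, Function.iterate_succ_apply']
  rfl

lemma IsClark.frac_eq (hμ : IsClark φ μ) (h : IsBdry φ S) {k : ℕ}
    (hp : ∀ j < k, ∀ x, 0 < rk (fun x => (μ (ee x)).map lift) E j x) (x : TT) :
    frac μ E k (ee x) = rk (fun x => (μ (ee x)).map lift) E k x := by
  induction k generalizing x with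
  | zero => rfl
  | succ k ih =>
    rw [frac_succ, ← hμ.int x (c := fun y => (rk (fun x => (μ (ee x)).map lift) E k y)⁻¹)
      ((rk_cont hμ.ker h fun j hj => hp j (by omega)).inv₀
      fun y => (hp k (by omega) y).ne') (g := fun ξ => (frac μ E k ξ)⁻¹)
      fun y => by rw [ih (fun j hj => hp j (by omega))]]
    rfl

lemma IsClark.pos_of (hμ : IsClark φ μ) (h : IsBdry φ S) (hE : 2 * sSup (norm '' WW S) ≤ E)
    (j : ℕ) (ζ : ℂ) (hζ : ‖ζ‖ = 1) : 0 < frac μ E j ζ := by
  have h1 := lower hμ.ker h hE j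
  rw [← ee_lift hζ, hμ.frac_eq h fun i hi => h1 i hi.le]
  exact h1 j le_rfl _

lemma IsClark.le_of (hμ : IsClark φ μ) (h : IsBdry φ S) {k : ℕ}
    (hp : ∀ j ≤ k, ∀ ζ : ℂ, ‖ζ‖ = 1 → 0 < frac μ E j ζ) :
    2 * sSup (norm '' WW S) * Real.cos (Real.pi / (k + 2)) ≤ E := by
  have h1 : ∀ j ≤ k, ∀ x, 0 < rk (fun x => (μ (ee x)).map lift) E j x := fun j => by
    induction j using Nat.strong_induction_on with
    | _ j ih =>
      intro hj x
      rw [← hμ.frac_eq h fun i hi => ih i hi (by omega)]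
      exact hp j hj _ (ee_norm x)
  have hE : 0 < E := h1 0 (Nat.zero_le _) 0
  rcases le_or_gt (Real.cos (Real.pi / (k + 2))) 0 with h2 | h2
  · nlinarith [w_nonneg h]
  have h3 : sSup (norm '' WW S) ≤ E / (2 * Real.cos (Real.pi / (k + 2))) := by
    refine csSup_le ⟨_, 1, one_mem_WW, rfl⟩ ?_
    rintro _ ⟨_, ⟨F, hF, hn, rfl⟩, rfl⟩
    have := upper hμ.ker h h1 hF.1
    rw [le_div_iff₀ (by positivity)]
    rw [hn] at this
    linarith
  rw [le_div_iff₀ (by positivity)] at h3
  linarith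

theorem radius (hφ : IsInnerFn φ) (hμ : IsClark φ μ) :
    IsLeast {E : ℝ | ∀ k : ℕ, ∀ ζ : ℂ, ‖ζ‖ = 1 → 0 < frac μ E k ζ}
      (2 * sSup (norm '' numRange φ)) ∧
    (∀ k : ℕ, level μ k ≤ 2 * sSup (norm '' numRange φ) ∧
      2 * sSup (norm '' numRange φ) * Real.cos (Real.pi / (k + 2)) ≤ level μ k) ∧
    Tendsto (fun k => level μ k / 2) atTop (𝓝 (sSup (norm '' numRange φ))) := by
  obtain ⟨S, h⟩ := exists_bdry hφ
  rw [show numRange φ = WW S from Set.ext h.mem_numRange]
  set w := sSup (norm '' WW S)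
  have h1 : ∀ k : ℕ, level μ k ≤ 2 * w ∧ 2 * w * Real.cos (Real.pi / (k + 2)) ≤ level μ k :=
    fun k => ⟨csInf_le ⟨0, fun E hE => (hE 0 (Nat.zero_le _) 1 norm_one).le⟩
      fun j _ => hμ.pos_of h le_rfl j,
    le_csInf ⟨2 * w, fun j _ => hμ.pos_of h le_rfl j⟩ fun E hE => hμ.le_of h hE⟩
  have h2 : Tendsto (fun k : ℕ => Real.pi / (k + 2)) atTop (𝓝 0) :=
    tendsto_const_nhds.div_atTop (tendsto_atTop_add_const_right _ _ tendsto_natCast_atTop_atTop)
  have h3 : Tendsto (fun k : ℕ => w * Real.cos (Real.pi / (k + 2))) atTop (𝓝 w) := by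
    simpa using ((Real.continuous_cos.tendsto 0).comp h2).const_mul w
  refine ⟨⟨hμ.pos_of h le_rfl, fun E hE => le_of_tendsto' (h3.const_mul 2) fun k => ?_⟩, h1,
    tendsto_of_tendsto_of_tendsto_of_le_of_le (h := fun _ => w) h3 tendsto_const_nhds
    (fun k => by linarith [(h1 k).2]) fun k => by linarith [(h1 k).1]⟩
  linarith [hμ.le_of h (k := k) fun j _ => hE j]

end Pool.Agent.Work.MP_f96e05_an.NR
end
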